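import Pool.Agent.H92.EQ.TF2

/-!
# Polynomial maps (helper file for the board `eqd_modules`)
-/

set_option autoImplicit false

namespace Pool.Agent.H38.EQ

open scoped BigOperators ComplexConjugate ContDiff ComplexOrder
open MeasureTheory Pool.Agent.H92.EQ

theorem pol_smooth {ι : Type} [Fintype ι] (P : MvPolynomial ι ℂ) :
    ContDiff ℝ ∞ (fun w : ι → ℂ => MvPolynomial.eval w P) := by
  induction P using MvPolynomial.induction_on with
  | C a => simpa using contDiff_const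
  | add p q hp hq => simpa using hp.add hq
  | mul_X p i hp =>
    simp only [map_mul, MvPolynomial.eval_X]
    exact hp.mul (contDiff_apply ℝ ℂ i)

theorem ev_smooth {ι κ : Type} [Fintype ι] [Fintype κ] (G : ι → MvPolynomial κ ℂ) :
    ContDiff ℝ ∞ (ev G) := contDiff_pi.mpr fun i => pol_smooth (G i)

theorem pol_hom {N D : ℕ} (P : MvPolynomial (Fin N) ℂ) (hP : P.IsHomogeneous D) (l : ℂ)
    (z : Fin N → ℂ) : MvPolynomial.eval (l • z) P = l ^ D * MvPolynomial.eval z P := by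
  rw [MvPolynomial.eval_eq', MvPolynomial.eval_eq', Finset.mul_sum]
  refine Finset.sum_congr rfl fun d hd => ?_
  have h1 : d.degree = D := by
    by_contra hne
    exact (MvPolynomial.mem_support_iff.mp hd) (hP.coeff_eq_zero hne)
  have h2 : ∏ i, (l • z) i ^ d i = l ^ D * ∏ i, z i ^ d i := by
    simp only [Pi.smul_apply, smul_eq_mul, mul_pow, Finset.prod_mul_distrib,
      Finset.prod_pow_eq_pow_sum]
    congr 2
    rw [← h1, Finsupp.degree_eq_sum]
  rw [h2]
  ring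

theorem ev_hom {N D : ℕ} {κ : Type} (G : κ → MvPolynomial (Fin N) ℂ)
    (hG : ∀ i, (G i).IsHomogeneous D) (l : ℂ) (z : Fin N → ℂ) :
    ev G (l • z) = l ^ D • ev G z := by
  funext i
  exact pol_hom (G i) (hG i) l z

theorem nsq_smul {ι : Type} [Fintype ι] (l : ℂ) (z : ι → ℂ) :
    nsq (l • z) = ‖l‖ ^ 2 * nsq z := by
  unfold nsq
  rw [Finset.mul_sum]
  refine Finset.sum_congr rfl fun i _ => ?_
  rw [Pi.smul_apply, smul_eq_mul, norm_mul, mul_pow]

theorem nsq_pos {ι : Type} [Fintype ι] {z : ι → ℂ} (hz : z ≠ 0) : 0 < nsq z := by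
  obtain ⟨i, hi⟩ := Function.ne_iff.mp hz
  refine Finset.sum_pos' (fun j _ => by positivity) ⟨i, Finset.mem_univ _, ?_⟩
  have : 0 < ‖z i‖ := norm_pos_iff.mpr hi
  positivity

theorem ell_smul {ι : Type} [Fintype ι] {l : ℂ} {z : ι → ℂ} (hl : l ≠ 0) (hz : z ≠ 0) :
    ell (l • z) = ell z + Real.log ‖l‖ := by
  unfold ell
  have h1 : ‖l‖ ^ 2 ≠ 0 := pow_ne_zero 2 (norm_ne_zero_iff.mpr hl)
  rw [nsq_smul, Real.log_mul h1 (nsq_pos hz).ne', Real.log_pow]
  push_cast
  ring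

theorem wd_lin {ι : Type} [Fintype ι] [DecidableEq ι] (a : ι) (f g : (ι → ℂ) → ℂ) (z : ι → ℂ)
    (α β : ℂ) (hf : DifferentiableAt ℝ f z) (hg : DifferentiableAt ℝ g z) :
    wd a (fun w => α * f w + β * g w) z = α * wd a f z + β * wd a g z := by
  have h : HasFDerivAt (fun w => α * f w + β * g w)
      (α • fderiv ℝ f z + β • fderiv ℝ g z) z :=
    (hf.hasFDerivAt.const_mul α).add (hg.hasFDerivAt.const_mul β)
  unfold wd
  rw [h.fderiv]
  simp only [add_apply, smul_apply, smul_eq_mul]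
  ring

theorem wdb_lin {ι : Type} [Fintype ι] [DecidableEq ι] (a : ι) (f g : (ι → ℂ) → ℂ) (z : ι → ℂ)
    (α β : ℂ) (hf : DifferentiableAt ℝ f z) (hg : DifferentiableAt ℝ g z) :
    wdb a (fun w => α * f w + β * g w) z = α * wdb a f z + β * wdb a g z := by
  have h : HasFDerivAt (fun w => α * f w + β * g w)
      (α • fderiv ℝ f z + β • fderiv ℝ g z) z :=
    (hf.hasFDerivAt.const_mul α).add (hg.hasFDerivAt.const_mul β)
  unfold wdb
  rw [h.fderiv]
  simp only [add_apply, smul_apply, smul_eq_mul]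
  ring

/-- the Hessian of a linear combination -/
theorem hess_lin (hW6 : T_W6) {ι : Type} [Fintype ι] [DecidableEq ι] (f g : (ι → ℂ) → ℂ)
    (U : Set (ι → ℂ)) (hU : IsOpen U) (hf : ContDiffOn ℝ ∞ f U) (hg : ContDiffOn ℝ ∞ g U)
    (α β : ℂ) (z : ι → ℂ) (hz : z ∈ U) :
    hess (fun w => α * f w + β * g w) z = α • hess f z + β • hess g z := by
  have hd : ∀ h : (ι → ℂ) → ℂ, ContDiffOn ℝ ∞ h U → ∀ w ∈ U, DifferentiableAt ℝ h w :=
    fun h hh w hw => (hh.contDiffAt (hU.mem_nhds hw)).differentiableAt (by simp)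
  funext a b
  show wd a (fun w => wdb b (fun w => α * f w + β * g w) w) z =
    α * wd a (fun w => wdb b f w) z + β * wd a (fun w => wdb b g w) z
  rw [← wd_lin a _ _ z α β (hd _ (hW6 ι b f U hU hf).2 z hz) (hd _ (hW6 ι b g U hU hg).2 z hz)]
  have he : (fun w => wdb b (fun w => α * f w + β * g w) w) =ᶠ[nhds z]
      fun w => α * wdb b f w + β * wdb b g w := by
    filter_upwards [hU.mem_nhds hz] with w hw
    exact wdb_lin b f g w α β (hd f hf w hw) (hd g hg w hw)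
  unfold wd
  rw [he.fderiv_eq]

theorem cx_smooth {ι : Type} [Fintype ι] {u : (ι → ℂ) → ℝ} {U : Set (ι → ℂ)}
    (hu : ContDiffOn ℝ ∞ u U) : ContDiffOn ℝ ∞ (fun w => (u w : ℂ)) U :=
  Complex.ofRealCLM.contDiff.comp_contDiffOn hu

/-- the real Hessian of a linear combination -/
theorem hessR_lin (hW6 : T_W6) {ι : Type} [Fintype ι] [DecidableEq ι] (u v : (ι → ℂ) → ℝ)
    (U : Set (ι → ℂ)) (hU : IsOpen U) (hu : ContDiffOn ℝ ∞ u U) (hv : ContDiffOn ℝ ∞ v U)
    (α β : ℝ) (z : ι → ℂ) (hz : z ∈ U) :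
    hessR (fun w => α * u w + β * v w) z = (α : ℂ) • hessR u z + (β : ℂ) • hessR v z := by
  have h := hess_lin hW6 (fun w => (u w : ℂ)) (fun w => (v w : ℂ)) U hU (cx_smooth hu)
    (cx_smooth hv) (α : ℂ) (β : ℂ) z hz
  have e : (fun w => ((α * u w + β * v w : ℝ) : ℂ)) =
      fun w => (α : ℂ) * (u w : ℂ) + (β : ℂ) * (v w : ℂ) := by
    funext w
    push_cast
    ring
  unfold hessR
  rw [e]
  exact h

end Pool.Agent.H38.EQ
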