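import Pool.Agent.H38.AT.Stmt
import Pool.Agent.H82.AS.Targets

/-!
# Equidistribution of admissible tuples ordered by radical: the counting side (S0, S2, S3)

Page: H71_EQ.md (team store). Every `T_X` is a proposition to be proved in a module of its own. All
bounds are for an arbitrary finite set `F` of tuples.
-/

set_option autoImplicit false

open Finset

namespace Pool.Agent.H38.EQ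

open Pool.Agent.H38.AE.Statement (Admissible radical)
open Pool.Agent.H38.AT (height)
open Pool.Agent.H82.AS (Sqf ex sq)

/-- the absolute value of the product of the entries; `radical (∏ i, x i)` is the product of its
prime factors (by `rfl`) -/
def pr {n : ℕ} (x : Fin n → ℤ) : ℕ := (∏ i, x i).natAbs

/-- pairwise coprime positive divisors -/
def PC {n : ℕ} (d : Fin n → ℕ) : Prop := (∀ i, 1 ≤ d i) ∧ ∀ i j, i ≠ j → (d i).Coprime (d j)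

/-- the tuples with sum `0`, nonzero entries, `d i ∣ x i` -/
def Lt {n : ℕ} (d : Fin n → ℕ) (x : Fin n → ℤ) : Prop :=
  (∀ i, x i ≠ 0 ∧ (d i : ℤ) ∣ x i) ∧ ∑ i, x i = 0

/-- CY: vectors with a small product in a box. -/
def T_CY : Prop := ∀ (m : ℕ) (θ : ℝ), 0 < θ → θ < 1 → ∃ C : ℝ, 0 < C ∧
  ∀ (M : Fin m → ℝ) (U : ℝ) (F : Finset (Fin m → ℤ)), (∀ i, 0 ≤ M i) → 0 ≤ U →
    (∀ y ∈ F, (∀ i, y i ≠ 0 ∧ |(y i : ℝ)| ≤ M i) ∧ ∏ i, |(y i : ℝ)| ≤ U) →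
    (F.card : ℝ) ≤ C * (∏ i, M i) ^ (1 - θ) * U ^ θ

/-- BXN: tuples in a box. -/
def T_BXN : Prop := ∀ n : ℕ, 3 ≤ n → ∃ C : ℝ, 0 < C ∧
  ∀ (d : Fin n → ℕ) (M : ℝ) (F : Finset (Fin n → ℤ)), PC d → 1 ≤ M →
    (∀ x ∈ F, Lt d x ∧ (height x : ℝ) ≤ M) →
    (F.card : ℝ) ≤ C * (M ^ (n - 1) / (∏ i, (d i : ℝ)) + M ^ (n - 2))

/-- DYA: tuples of given height with a small product. -/
def T_DYA : Prop := ∀ n : ℕ, 3 ≤ n → ∃ C : ℝ, 0 < C ∧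
  ∀ (d : Fin n → ℕ) (T ρ : ℝ) (F : Finset (Fin n → ℤ)), PC d → 1 ≤ T → 1 ≤ ρ →
    (∀ x ∈ F, Lt d x ∧ (pr x : ℝ) ≤ T ∧ ρ * T ^ (1 / (n : ℝ)) ≤ (height x : ℝ) ∧
      (height x : ℝ) ≤ 2 * ρ * T ^ (1 / (n : ℝ))) →
    (F.card : ℝ) ≤ C * ρ ^ (-(1 / 2) : ℝ) *
      (T ^ (1 - 1 / (n : ℝ)) / (∏ i, (d i : ℝ)) + T ^ (1 - 2 / (n : ℝ)))

/-- SZ: tuples with a small product, and those of large height. -/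
def T_SZ : Prop := ∀ n : ℕ, 3 ≤ n → ∃ C : ℝ, 0 < C ∧
  ∀ (d : Fin n → ℕ) (T : ℝ) (F : Finset (Fin n → ℤ)), PC d → 1 ≤ T →
    (∀ x ∈ F, Lt d x ∧ (pr x : ℝ) ≤ T) →
    ((F.card : ℝ) ≤ C * (T ^ (1 - 1 / (n : ℝ)) / (∏ i, (d i : ℝ)) + T ^ (1 - 2 / (n : ℝ)))) ∧
    ∀ lam : ℝ, 1 ≤ lam → (∀ x ∈ F, lam * T ^ (1 / (n : ℝ)) ≤ (height x : ℝ)) →
      (F.card : ℝ) ≤ C * lam ^ (-(1 / 2) : ℝ) *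
        (T ^ (1 - 1 / (n : ℝ)) / (∏ i, (d i : ℝ)) + T ^ (1 - 2 / (n : ℝ)))

/-- ADN: admissible tuples with `D ∣ x 1 ... x n`. -/
def T_ADN : Prop := ∀ n : ℕ, 3 ≤ n → ∃ C : ℝ, 0 < C ∧
  ∀ (D : ℕ) (T : ℝ) (F : Finset (Fin n → ℤ)), 1 ≤ D → 1 ≤ T →
    (∀ x ∈ F, Admissible x ∧ D ∣ pr x ∧ (pr x : ℝ) ≤ T) →
    ((F.card : ℝ) ≤ C * (D : ℝ) ^ (1 / (8 * (n : ℝ))) *
      (T ^ (1 - 1 / (n : ℝ)) / D + T ^ (1 - 2 / (n : ℝ)))) ∧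
    ∀ lam : ℝ, 1 ≤ lam → (∀ x ∈ F, lam * T ^ (1 / (n : ℝ)) ≤ (height x : ℝ)) →
      (F.card : ℝ) ≤ C * (D : ℝ) ^ (1 / (8 * (n : ℝ))) * lam ^ (-(1 / 2) : ℝ) *
        (T ^ (1 - 1 / (n : ℝ)) / D + T ^ (1 - 2 / (n : ℝ)))

/-- SQD: squarefull numbers in a dyadic interval (compare `T_SQT`). -/
def T_SQD : Prop := ∀ n : ℕ, 3 ≤ n → ∀ ε : ℝ, 0 < ε → ∃ C : ℝ, 0 < C ∧
  ∀ (W : ℝ) (F : Finset ℕ), 1 ≤ W → (∀ D ∈ F, Sqf D ∧ W / 2 < (D : ℝ) ∧ (D : ℝ) ≤ W) →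
    ∑ D ∈ F, ex D ^ (1 - 1 / (n : ℝ)) / D ≤ C * W ^ (-(1 / (2 * (n : ℝ))) + ε)

/-- SQN: the sum over large squarefull numbers (compare `T_SQS`). -/
def T_SQN : Prop := ∀ n : ℕ, 3 ≤ n → ∃ C : ℝ, 0 < C ∧ ∀ (Y : ℝ) (F : Finset ℕ), 1 ≤ Y →
  (∀ D ∈ F, Sqf D ∧ 1 ≤ D ∧ Y ≤ (D : ℝ)) →
  ∑ D ∈ F, (D : ℝ) ^ (1 / (4 * (n : ℝ))) * ex D ^ (1 - 1 / (n : ℝ)) / D ≤
    C * Y ^ (-(1 / (8 * (n : ℝ))))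

/-- SQL: small height and a very large squarefull part. -/
def T_SQL : Prop := ∀ n : ℕ, 3 ≤ n → ∀ η : ℝ, 0 < η → ∃ ε₀ c C : ℝ, 0 < ε₀ ∧ 0 < c ∧ 0 < C ∧
  ∀ (X : ℝ) (F : Finset (Fin n → ℤ)), 1 ≤ X →
    (∀ x ∈ F, Admissible x ∧ (height x : ℝ) ≤ X ^ (1 / (n : ℝ) + ε₀) ∧
      X ^ η < (sq (pr x) : ℝ)) →
    (F.card : ℝ) ≤ C * X ^ (1 - 1 / (n : ℝ) - c)

/-- SQM: radical at most `X` and squarefull part between `Y` and `X ^ η`. -/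
def T_SQM : Prop := ∀ n : ℕ, 3 ≤ n → ∃ η c C : ℝ, 0 < η ∧ 0 < c ∧ 0 < C ∧
  ∀ (X Y : ℝ) (F : Finset (Fin n → ℤ)), 1 ≤ X → 1 ≤ Y →
    (∀ x ∈ F, Admissible x ∧ (radical (∏ i, x i) : ℝ) ≤ X ∧ Y ≤ (sq (pr x) : ℝ) ∧
      (sq (pr x) : ℝ) ≤ X ^ η) →
    (F.card : ℝ) ≤ C * (Y ^ (-c) * X ^ (1 - 1 / (n : ℝ)) + X ^ (1 - 1 / (n : ℝ) - c))

/-- HTL: radical at most `X`, squarefull part at most `Y`, large height. -/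
def T_HTL : Prop := ∀ n : ℕ, 3 ≤ n → ∀ Y : ℝ, 1 ≤ Y → ∃ C : ℝ, 0 < C ∧
  ∀ (X lam : ℝ) (F : Finset (Fin n → ℤ)), 1 ≤ X → 1 ≤ lam →
    (∀ x ∈ F, Admissible x ∧ (radical (∏ i, x i) : ℝ) ≤ X ∧ (sq (pr x) : ℝ) ≤ Y ∧
      lam * X ^ (1 / (n : ℝ)) ≤ (height x : ℝ)) →
    (F.card : ℝ) ≤ C * lam ^ (-(1 / 2) : ℝ) * X ^ (1 - 1 / (n : ℝ))

/-- TGT: no mass escapes. -/
def T_TGT : Prop := ∀ n : ℕ, 3 ≤ n → ∃ ε₀ : ℝ, 0 < ε₀ ∧ ∀ ε : ℝ, 0 < ε →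
  ∃ Y lam X₀ : ℝ, 1 ≤ Y ∧ 1 ≤ lam ∧ 1 ≤ X₀ ∧ ∀ (X : ℝ) (F : Finset (Fin n → ℤ)), X₀ ≤ X →
    (∀ x ∈ F, Admissible x ∧ (radical (∏ i, x i) : ℝ) ≤ X ∧
      (height x : ℝ) ≤ X ^ (1 / (n : ℝ) + ε₀) ∧
      (Y ≤ ex (pr x) ∨ lam * X ^ (1 / (n : ℝ)) ≤ (height x : ℝ))) →
    (F.card : ℝ) ≤ ε * X ^ (1 - 1 / (n : ℝ))

end Pool.Agent.H38.EQ
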