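import Pool.Agent.H92.EQ.TF1

/-!
# Domination with a fixed last slot (row A13b of the board `eqd_modules`)
-/

set_option autoImplicit false

namespace Pool.Agent.H38.EQ

open scoped BigOperators ComplexConjugate ContDiff ComplexOrder
open Pool.Agent.H92.EQ

theorem norm_nn {z : ℂ} (h : 0 ≤ z) : ‖z‖ = z.re := by
  rw [Complex.nonneg_iff] at h
  have h1 : z = (z.re : ℂ) := Complex.ext rfl (by simp [← h.2])
  rw [h1, Complex.norm_real, Real.norm_of_nonneg h.1, Complex.ofReal_re]

theorem re_nn {z : ℂ} (h : 0 ≤ z) : 0 ≤ z.re := (Complex.nonneg_iff.mp h).1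

theorem psd_half {ι : Type} [Fintype ι] {A : Matrix ι ι ℂ}
    (h : (A + A).PosSemidef) : A.PosSemidef := by
  have h1 := h.smul (show (0 : ℂ) ≤ 1 / 2 by
    rw [Complex.nonneg_iff]
    norm_num)
  have h2 : (1 / 2 : ℂ) • (A + A) = A := by
    rw [← two_smul ℂ A, smul_smul]
    norm_num
  rwa [h2] at h1

theorem dom_psd {ι : Type} [Fintype ι] {H B : Matrix ι ι ℂ} (h : Dom H B) :
    B.PosSemidef := by
  apply psd_half
  have := h.1.add h.2.1
  have e : B - (1 / 2 : ℂ) • (H + H.conjTranspose) + (B + (1 / 2 : ℂ) • (H + H.conjTranspose)) =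
      B + B := by abel
  rwa [e] at this

theorem dom_gen {ι : Type} [Fintype ι] [DecidableEq ι] {m : ℕ}
    (F : (Fin m → Matrix ι ι ℂ) → ℂ)
    (hadd : ∀ (H : Fin m → Matrix ι ι ℂ) (j : Fin m) (A B : Matrix ι ι ℂ),
      F (Function.update H j (A + B)) = F (Function.update H j A) + F (Function.update H j B))
    (hsm : ∀ (H : Fin m → Matrix ι ι ℂ) (j : Fin m) (c : ℂ) (A : Matrix ι ι ℂ),
      F (Function.update H j (c • A)) = c * F (Function.update H j A))
    (hpos : ∀ H : Fin m → Matrix ι ι ℂ, (∀ j, (H j).PosSemidef) → 0 ≤ F H)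
    (B : Matrix ι ι ℂ) : ∀ t : ℕ, t ≤ m → ∀ H : Fin m → Matrix ι ι ℂ,
      (∀ j : Fin m, j.1 < t → Dom (H j) B) → (∀ j : Fin m, t ≤ j.1 → (H j).PosSemidef) →
      ‖F H‖ ≤ 6 ^ t * (F (fun j => if j.1 < t then B else H j)).re := by
  intro t
  induction t with
  | zero =>
    intro _ H _ hH
    have h1 : (fun j : Fin m => if j.1 < 0 then B else H j) = H := by
      funext j
      simp
    rw [h1, norm_nn (hpos H fun j => hH j (Nat.zero_le _))]
    simp
  | succ t ih =>
    intro htm H hD hH
    set j0 : Fin m := ⟨t, by omega⟩ with hj0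
    have hD0 : Dom (H j0) B := hD j0 (by simp [hj0])
    have hB : B.PosSemidef := dom_psd hD0
    obtain ⟨h1, h2, h3, h4⟩ := hD0
    set Hh := ((1 : ℂ) / 2) • (H j0 + (H j0).conjTranspose) with hHh
    set Hk := (-Complex.I / 2) • (H j0 - (H j0).conjTranspose) with hHk
    have hdec : H j0 = (B + Hh) + ((-1 : ℂ) • B + (Complex.I • (B + Hk) +
        (-Complex.I) • B)) := by
      have e1 : Hh + Complex.I • Hk = H j0 := by
        rw [hHh, hHk, smul_smul]
        have : Complex.I * (-Complex.I / 2) = 1 / 2 := by
          rw [mul_div_assoc', mul_neg, Complex.I_mul_I]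
          norm_num
        rw [this, ← smul_add, add_add_sub_cancel, ← two_smul ℂ (H j0), smul_smul]
        norm_num
      have e2 : (B + Hh) + ((-1 : ℂ) • B + (Complex.I • (B + Hk) + (-Complex.I) • B)) =
          Hh + Complex.I • Hk := by
        rw [smul_add, neg_smul, neg_smul, one_smul]
        abel
      rw [e2, e1]
    -- the four terms
    have hterm : ∀ X : Matrix ι ι ℂ, X.PosSemidef → ‖F (Function.update H j0 X)‖ ≤
        6 ^ t * (F (Function.update (fun j : Fin m => if j.1 < t + 1 then B else H j) j0 X)).re := by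
      intro X hX
      have h := ih (by omega) (Function.update H j0 X) (by
        intro j hj
        have hne : j ≠ j0 := by
          rintro rfl
          simp [hj0] at hj
        rw [Function.update_of_ne hne]
        exact hD j (by omega)) (by
        intro j hj
        by_cases hne : j = j0
        · rw [hne, Function.update_self]
          exact hX
        · rw [Function.update_of_ne hne]
          refine hH j ?_
          have : j.1 ≠ t := fun h => hne (Fin.ext h)
          omega)
      refine h.trans (le_of_eq ?_)
      congr 3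
      funext j
      by_cases hne : j = j0
      · rw [hne, Function.update_self, Function.update_self, if_neg (by simp [hj0])]
      · have hjt : j.1 ≠ t := fun h => hne (Fin.ext h)
        rw [Function.update_of_ne hne, Function.update_of_ne hne]
        by_cases hj : j.1 < t
        · rw [if_pos hj, if_pos (by omega)]
        · rw [if_neg hj, if_neg (by omega)]
    set G : Matrix ι ι ℂ → ℂ := fun X =>
      F (Function.update (fun j : Fin m => if j.1 < t + 1 then B else H j) j0 X) with hG
    have hGpos : ∀ X : Matrix ι ι ℂ, X.PosSemidef → 0 ≤ G X := by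
      intro X hX
      refine hpos _ fun j => ?_
      by_cases hne : j = j0
      · rw [hne, Function.update_self]
        exact hX
      · rw [Function.update_of_ne hne]
        split_ifs with hj
        · exact hB
        · exact hH j (by omega)
    have hGadd : ∀ X Y : Matrix ι ι ℂ, G (X + Y) = G X + G Y := fun X Y => hadd _ _ _ _
    have hGB : G B = F (fun j : Fin m => if j.1 < t + 1 then B else H j) := by
      rw [hG]
      dsimp only
      congr 1
      funext j
      by_cases hne : j = j0
      · rw [hne, Function.update_self, if_pos (by simp [hj0])]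
      · rw [Function.update_of_ne hne]
    have hmono : ∀ X Y : Matrix ι ι ℂ, Y.PosSemidef → X + Y = B + B →
        (G X).re ≤ 2 * (G B).re := by
      intro X Y hY hXY
      have e1 : G X + G Y = G B + G B := by rw [← hGadd, hXY, hGadd]
      have e2 : (G X).re + (G Y).re = (G B).re + (G B).re := by
        rw [← Complex.add_re, e1, Complex.add_re]
      have e3 := re_nn (hGpos Y hY)
      linarith
    have hF : F H = F (Function.update H j0 (B + Hh)) + ((-1) * F (Function.update H j0 B) +
        (Complex.I * F (Function.update H j0 (B + Hk)) +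
          (-Complex.I) * F (Function.update H j0 B))) := by
      have e : H = Function.update H j0 (H j0) := (Function.update_eq_self j0 H).symm
      conv_lhs => rw [e, hdec]
      rw [hadd H j0 (B + Hh), hadd H j0 ((-1 : ℂ) • B), hadd H j0 (Complex.I • (B + Hk)),
        hsm H j0 (-1) B, hsm H j0 Complex.I (B + Hk), hsm H j0 (-Complex.I) B]
    rw [hF, ← hGB]
    have n1 := hterm (B + Hh) h2
    have n2 := hterm B hB
    have n3 := hterm (B + Hk) h4
    have m1 := hmono (B + Hh) (B - Hh) h1 (by abel)
    have m3 := hmono (B + Hk) (B - Hk) h3 (by abel)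
    have k1 : ‖(-1 : ℂ) * F (Function.update H j0 B)‖ = ‖F (Function.update H j0 B)‖ := by
      rw [norm_mul]
      simp
    have k2 : ‖Complex.I * F (Function.update H j0 (B + Hk))‖ =
        ‖F (Function.update H j0 (B + Hk))‖ := by
      rw [norm_mul]
      simp
    have k3 : ‖(-Complex.I) * F (Function.update H j0 B)‖ = ‖F (Function.update H j0 B)‖ := by
      rw [norm_mul]
      simp
    have tri : ‖F (Function.update H j0 (B + Hh)) + ((-1) * F (Function.update H j0 B) +
        (Complex.I * F (Function.update H j0 (B + Hk)) +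
          (-Complex.I) * F (Function.update H j0 B)))‖ ≤
        ‖F (Function.update H j0 (B + Hh))‖ + (‖F (Function.update H j0 B)‖ +
        (‖F (Function.update H j0 (B + Hk))‖ + ‖F (Function.update H j0 B)‖)) := by
      refine (norm_add_le _ _).trans (add_le_add (le_refl _) ?_)
      refine (norm_add_le _ _).trans (add_le_add k1.le ?_)
      exact (norm_add_le _ _).trans (add_le_add k2.le k3.le)
    refine tri.trans ?_
    have hp : (0 : ℝ) ≤ 6 ^ t := by positivity
    change ‖F (Function.update H j0 (B + Hh))‖ ≤ 6 ^ t * (G (B + Hh)).re at n1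
    change ‖F (Function.update H j0 B)‖ ≤ 6 ^ t * (G B).re at n2
    change ‖F (Function.update H j0 (B + Hk))‖ ≤ 6 ^ t * (G (B + Hk)).re at n3
    have q1 := mul_le_mul_of_nonneg_left m1 hp
    have q3 := mul_le_mul_of_nonneg_left m3 hp
    rw [pow_succ]
    linarith

theorem pf_A13b (h1 : T_A1) (h4 : T_A4) : T_A13b := by
  intro ι _ _ p m S H B R hS hR hD
  have h := dom_gen (m := m)
    (fun H' => mixD S (Fin.snoc (α := fun _ => Matrix ι ι ℂ) H' R))
    (fun H' j A A' => by
      rw [Fin.snoc_update, Fin.snoc_update, Fin.snoc_update]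
      exact (h1 ι p (m + 1) S S _ j.castSucc A A' 1).1)
    (fun H' j c A => by
      rw [Fin.snoc_update, Fin.snoc_update]
      exact (h1 ι p (m + 1) S S _ j.castSucc A A c).2.1)
    (fun H' hH' => h4 ι p (m + 1) S _ hS (by
      intro j
      refine Fin.lastCases ?_ (fun i => ?_) j
      · rw [Fin.snoc_last]
        exact hR
      · rw [Fin.snoc_castSucc]
        exact hH' i)) B m le_rfl H (fun j _ => hD j) (fun j hj => absurd j.2 (by omega))
  have e : (fun j : Fin m => if j.1 < m then B else H j) = fun _ => B := by
    funext j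
    rw [if_pos j.2]
  rw [e] at h
  exact h

end Pool.Agent.H38.EQ
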