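import Pool.Agent.H38.EQ.Targets

/-!
# Row CY of EQ (MP_7ecdd4_nt): vectors with a small product in a box
-/

set_option autoImplicit false

open Finset

namespace Pool.Agent.H38.EQ

theorem sum_rpow_neg (θ : ℝ) (h0 : 0 < θ) (h1 : θ < 1) (N : ℕ) :
    ∑ k ∈ Finset.Icc 1 N, (k : ℝ) ^ (-θ) ≤ (N : ℝ) ^ (1 - θ) / (1 - θ) := by
  have hθ : 0 < 1 - θ := by linarith
  induction N with
  | zero =>
    simp only [Finset.Icc_eq_empty_of_lt Nat.zero_lt_one, Finset.sum_empty]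
    positivity
  | succ N ih =>
    rw [Finset.sum_Icc_succ_top (by omega)]
    have hN : (0 : ℝ) < (N : ℝ) + 1 := by positivity
    set t : ℝ := 1 / ((N : ℝ) + 1) with ht
    have ht0 : 0 ≤ t := by positivity
    have ht1 : t ≤ 1 := by
      rw [ht, div_le_one hN]
      linarith [(Nat.cast_nonneg N : (0 : ℝ) ≤ N)]
    have hb : (1 + -t) ^ (1 - θ) ≤ 1 + (1 - θ) * -t :=
      rpow_one_add_le_one_add_mul_self (by linarith) hθ.le (by linarith)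
    have hNt : (N : ℝ) = ((N : ℝ) + 1) * (1 + -t) := by
      rw [ht]
      field_simp
      ring
    have h2 : (N : ℝ) ^ (1 - θ) ≤ ((N : ℝ) + 1) ^ (1 - θ) * (1 + (1 - θ) * -t) := by
      calc (N : ℝ) ^ (1 - θ) = (((N : ℝ) + 1) * (1 + -t)) ^ (1 - θ) := by rw [← hNt]
        _ = ((N : ℝ) + 1) ^ (1 - θ) * (1 + -t) ^ (1 - θ) :=
            Real.mul_rpow hN.le (by linarith)
        _ ≤ _ := mul_le_mul_of_nonneg_left hb (by positivity)
    have h3 : ((N : ℝ) + 1) ^ (1 - θ) * t = ((N : ℝ) + 1) ^ (-θ) := by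
      rw [ht, Real.rpow_sub hN, Real.rpow_one, Real.rpow_neg hN.le]
      field_simp
    have h4 : (N : ℝ) ^ (1 - θ) + (1 - θ) * ((N : ℝ) + 1) ^ (-θ) ≤ ((N : ℝ) + 1) ^ (1 - θ) := by
      rw [← h3]
      linarith
    push_cast
    calc ∑ k ∈ Finset.Icc 1 N, (k : ℝ) ^ (-θ) + ((N : ℝ) + 1) ^ (-θ)
        ≤ (N : ℝ) ^ (1 - θ) / (1 - θ) + ((N : ℝ) + 1) ^ (-θ) := by linarith
      _ = ((N : ℝ) ^ (1 - θ) + (1 - θ) * ((N : ℝ) + 1) ^ (-θ)) / (1 - θ) := by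
          field_simp
      _ ≤ _ := div_le_div_of_nonneg_right h4 hθ.le

theorem sum_int (θ : ℝ) (h0 : 0 < θ) (h1 : θ < 1) (M : ℝ) (hM : 0 ≤ M) :
    ∑ z ∈ (Finset.Icc (-⌊M⌋) ⌊M⌋).filter (fun z => z ≠ 0), |(z : ℝ)| ^ (-θ) ≤
      2 / (1 - θ) * M ^ (1 - θ) := by
  have hθ : 0 < 1 - θ := by linarith
  set N : ℕ := ⌊M⌋₊ with hN
  have hfl : (⌊M⌋ : ℤ) = (N : ℤ) := (Int.natCast_floor_eq_floor hM).symm
  have hsub : (Finset.Icc (-⌊M⌋) ⌊M⌋).filter (fun z => z ≠ 0) ⊆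
      (Finset.Icc 1 N).image (fun k : ℕ => (k : ℤ)) ∪
        (Finset.Icc 1 N).image (fun k : ℕ => -(k : ℤ)) := by
    intro z hz
    rw [Finset.mem_filter, Finset.mem_Icc, hfl] at hz
    obtain ⟨⟨h2, h3⟩, h4⟩ := hz
    rw [Finset.mem_union, Finset.mem_image, Finset.mem_image]
    rcases lt_or_gt_of_ne h4 with h5 | h5
    · right
      refine ⟨z.natAbs, Finset.mem_Icc.2 ⟨by omega, by omega⟩, by omega⟩
    · left
      refine ⟨z.natAbs, Finset.mem_Icc.2 ⟨by omega, by omega⟩, by omega⟩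
  have hf : ∀ z : ℤ, 0 ≤ |(z : ℝ)| ^ (-θ) := fun z => Real.rpow_nonneg (abs_nonneg _) _
  have hA : ∑ z ∈ (Finset.Icc 1 N).image (fun k : ℕ => (k : ℤ)), |(z : ℝ)| ^ (-θ) =
      ∑ k ∈ Finset.Icc 1 N, (k : ℝ) ^ (-θ) := by
    rw [Finset.sum_image (fun a _ b _ hab => by exact_mod_cast hab)]
    refine Finset.sum_congr rfl fun k _ => ?_
    rw [Int.cast_natCast, abs_of_nonneg (Nat.cast_nonneg k)]
  have hB : ∑ z ∈ (Finset.Icc 1 N).image (fun k : ℕ => -(k : ℤ)), |(z : ℝ)| ^ (-θ) =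
      ∑ k ∈ Finset.Icc 1 N, (k : ℝ) ^ (-θ) := by
    rw [Finset.sum_image (fun a _ b _ hab => by
      have h := neg_injective hab
      exact_mod_cast h)]
    refine Finset.sum_congr rfl fun k _ => ?_
    rw [Int.cast_neg, Int.cast_natCast, abs_neg, abs_of_nonneg (Nat.cast_nonneg k)]
  have hS := sum_rpow_neg θ h0 h1 N
  have hNM : (N : ℝ) ^ (1 - θ) ≤ M ^ (1 - θ) :=
    Real.rpow_le_rpow (Nat.cast_nonneg _) (Nat.floor_le hM) hθ.le
  calc ∑ z ∈ (Finset.Icc (-⌊M⌋) ⌊M⌋).filter (fun z => z ≠ 0), |(z : ℝ)| ^ (-θ)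
      ≤ ∑ z ∈ (Finset.Icc 1 N).image (fun k : ℕ => (k : ℤ)) ∪
        (Finset.Icc 1 N).image (fun k : ℕ => -(k : ℤ)), |(z : ℝ)| ^ (-θ) :=
        Finset.sum_le_sum_of_subset_of_nonneg hsub fun z _ _ => hf z
    _ ≤ ∑ z ∈ (Finset.Icc 1 N).image (fun k : ℕ => (k : ℤ)), |(z : ℝ)| ^ (-θ) +
        ∑ z ∈ (Finset.Icc 1 N).image (fun k : ℕ => -(k : ℤ)), |(z : ℝ)| ^ (-θ) := by
        have h := Finset.sum_union_inter (s₁ := (Finset.Icc 1 N).image (fun k : ℕ => (k : ℤ)))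
          (s₂ := (Finset.Icc 1 N).image (fun k : ℕ => -(k : ℤ)))
          (f := fun z : ℤ => |(z : ℝ)| ^ (-θ))
        have h2 : 0 ≤ ∑ z ∈ (Finset.Icc 1 N).image (fun k : ℕ => (k : ℤ)) ∩
          (Finset.Icc 1 N).image (fun k : ℕ => -(k : ℤ)), |(z : ℝ)| ^ (-θ) :=
          Finset.sum_nonneg fun z _ => hf z
        linarith
    _ = 2 * ∑ k ∈ Finset.Icc 1 N, (k : ℝ) ^ (-θ) := by rw [hA, hB]; ring
    _ ≤ 2 * ((N : ℝ) ^ (1 - θ) / (1 - θ)) := by linarith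
    _ ≤ 2 * (M ^ (1 - θ) / (1 - θ)) := by
        have := div_le_div_of_nonneg_right hNM hθ.le
        linarith
    _ = _ := by ring

/-- CY. -/
theorem pf_CY : T_CY := by
  intro m θ h0 h1
  have hθ : 0 < 1 - θ := by linarith
  refine ⟨(2 / (1 - θ)) ^ m, by positivity, ?_⟩
  intro M U F hM hU hF
  let S : Fin m → Finset ℤ := fun i => (Finset.Icc (-⌊M i⌋) ⌊M i⌋).filter (fun z => z ≠ 0)
  have hFS : F ⊆ Fintype.piFinset S := by
    intro y hy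
    rw [Fintype.mem_piFinset]
    intro i
    obtain ⟨h2, h3⟩ := (hF y hy).1 i
    rw [Finset.mem_filter, Finset.mem_Icc]
    rw [abs_le] at h3
    refine ⟨⟨?_, Int.le_floor.2 h3.2⟩, h2⟩
    have h4 : -y i ≤ ⌊M i⌋ := by
      rw [Int.le_floor]
      push_cast
      linarith
    omega
  have hone : ∀ y ∈ F, (1 : ℝ) ≤ U ^ θ * ∏ i, |(y i : ℝ)| ^ (-θ) := by
    intro y hy
    have hpos : 0 < ∏ i, |(y i : ℝ)| := Finset.prod_pos fun i _ => by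
      have := ((hF y hy).1 i).1
      positivity
    have h2 := (hF y hy).2
    rw [Real.finsetProd_rpow _ _ fun i _ => abs_nonneg _, Real.rpow_neg hpos.le,
      ← div_eq_mul_inv, ← Real.div_rpow hU hpos.le]
    exact Real.one_le_rpow ((one_le_div hpos).2 h2) h0.le
  calc (F.card : ℝ) = ∑ y ∈ F, (1 : ℝ) := by simp
    _ ≤ ∑ y ∈ F, U ^ θ * ∏ i, |(y i : ℝ)| ^ (-θ) := Finset.sum_le_sum hone
    _ = U ^ θ * ∑ y ∈ F, ∏ i, |(y i : ℝ)| ^ (-θ) := by rw [Finset.mul_sum]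
    _ ≤ U ^ θ * ∑ y ∈ Fintype.piFinset S, ∏ i, |(y i : ℝ)| ^ (-θ) := by
        refine mul_le_mul_of_nonneg_left ?_ (Real.rpow_nonneg hU _)
        exact Finset.sum_le_sum_of_subset_of_nonneg hFS fun y _ _ =>
          Finset.prod_nonneg fun i _ => Real.rpow_nonneg (abs_nonneg _) _
    _ = U ^ θ * ∏ i, ∑ z ∈ S i, |(z : ℝ)| ^ (-θ) := by
        rw [Finset.prod_univ_sum]
    _ ≤ U ^ θ * ∏ i, (2 / (1 - θ) * M i ^ (1 - θ)) := by
        refine mul_le_mul_of_nonneg_left ?_ (Real.rpow_nonneg hU _)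
        exact Finset.prod_le_prod (fun i _ => Finset.sum_nonneg fun z _ =>
          Real.rpow_nonneg (abs_nonneg _) _) fun i _ => sum_int θ h0 h1 (M i) (hM i)
    _ = (2 / (1 - θ)) ^ m * (∏ i, M i) ^ (1 - θ) * U ^ θ := by
        rw [Finset.prod_mul_distrib, Finset.prod_const, Finset.card_univ, Fintype.card_fin,
          Real.finsetProd_rpow _ _ fun i _ => hM i]
        ring

end Pool.Agent.H38.EQ
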