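import Pool.Agent.H38.EQ.Targets

/-!
# Row DYA of EQ (MP_7ecdd4_nt): tuples of given height with a small product
-/

set_option autoImplicit false

open Finset

namespace Pool.Agent.H38.EQ

open Pool.Agent.H38.AE.Statement (Admissible radical)
open Pool.Agent.H38.AT (height)

theorem card_cong (D : ℕ) (hD : 1 ≤ D) (M : ℝ) (hM : 0 ≤ M) (S : Finset ℤ)
    (hS : ∀ z ∈ S, |(z : ℝ)| ≤ M) (hc : ∀ z ∈ S, ∀ w ∈ S, (D : ℤ) ∣ z - w) :
    (S.card : ℝ) ≤ 1 + 2 * M / D := by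
  have hDR : (0 : ℝ) < D := by exact_mod_cast hD
  have hDZ : (0 : ℤ) < D := by exact_mod_cast hD
  rcases S.eq_empty_or_nonempty with rfl | hne
  · simp only [Finset.card_empty, Nat.cast_zero]
    positivity
  obtain ⟨z0, hz0S, hz0⟩ : ∃ z0 ∈ S, ∀ z ∈ S, z0 ≤ z := ⟨S.min' hne, S.min'_mem hne,
    fun z hz => S.min'_le z hz⟩
  have hle : S.card ≤ (Finset.range (⌊2 * M / D⌋₊ + 1)).card := by
    refine Finset.card_le_card_of_injOn (fun z => ((z - z0) / D).toNat) ?_ ?_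
    · intro z hz
      have hz' : z ∈ S := hz
      obtain ⟨q, hq⟩ := hc z hz' z0 hz0S
      have hq2 : (z - z0) / D = q := by
        rw [hq]
        exact Int.mul_ediv_cancel_left q hDZ.ne'
      have h2 := hz0 z hz'
      have hq0 : 0 ≤ q := by
        by_contra h
        have h3 : q ≤ -1 := by omega
        nlinarith
      show ((z - z0) / D).toNat ∈ (Finset.range (⌊2 * M / D⌋₊ + 1) : Set ℕ)
      rw [hq2, Finset.mem_coe, Finset.mem_range, Nat.lt_add_one_iff]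
      refine Nat.le_floor ?_
      rw [le_div_iff₀ hDR]
      have h3 : ((q.toNat : ℕ) : ℝ) = (q : ℝ) := by
        have : ((q.toNat : ℕ) : ℤ) = q := Int.toNat_of_nonneg hq0
        exact_mod_cast this
      rw [h3]
      have h4 : (z : ℝ) - z0 = D * q := by exact_mod_cast hq
      have h5 := (abs_le.1 (hS z hz')).2
      have h6 := (abs_le.1 (hS z0 hz0S)).1
      linarith
    · intro z hz w hw h
      have hz' : z ∈ S := hz
      have hw' : w ∈ S := hw
      obtain ⟨q, hq⟩ := hc z hz' z0 hz0S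
      obtain ⟨r, hr⟩ := hc w hw' z0 hz0S
      have h' : ((z - z0) / D).toNat = ((w - z0) / D).toNat := h
      rw [hq, hr, Int.mul_ediv_cancel_left q hDZ.ne', Int.mul_ediv_cancel_left r hDZ.ne'] at h'
      have h2 := hz0 z hz'
      have h3 := hz0 w hw'
      have hq0 : 0 ≤ q := by
        by_contra h
        have h3 : q ≤ -1 := by omega
        nlinarith
      have hr0 : 0 ≤ r := by
        by_contra h
        have h3 : r ≤ -1 := by omega
        nlinarith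
      have h4 : q = r := by omega
      rw [h4] at hq
      linarith
  rw [Finset.card_range] at hle
  have h1 : (S.card : ℝ) ≤ (⌊2 * M / D⌋₊ : ℝ) + 1 := by exact_mod_cast hle
  have h2 := Nat.floor_le (show (0 : ℝ) ≤ 2 * M / D by positivity)
  linarith

theorem fib {n : ℕ} (d : Fin n → ℕ) (a b : Fin n) (M : ℝ) (F : Finset (Fin n → ℤ)) (hd : PC d)
    (hab : a ≠ b) (hM : 0 ≤ M) (hF : ∀ x ∈ F, Lt d x ∧ |(x a : ℝ)| ≤ M)
    (hE : ∀ x ∈ F, ∀ y ∈ F, ∀ i, i ≠ a → i ≠ b → x i = y i) :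
    (F.card : ℝ) ≤ 1 + 2 * M / ((d a : ℝ) * d b) := by
  classical
  have hsum : ∀ x : Fin n → ℤ, ∑ i, x i = x a + x b + ∑ i ∈ (univ.erase a).erase b, x i := by
    intro x
    rw [← Finset.add_sum_erase univ x (Finset.mem_univ a),
      ← Finset.add_sum_erase (univ.erase a) x (Finset.mem_erase.2 ⟨hab.symm, Finset.mem_univ b⟩)]
    ring
  have hdif : ∀ x ∈ F, ∀ y ∈ F, x a - y a = -(x b - y b) := by
    intro x hx y hy
    have h1 := (hF x hx).1.2
    have h2 := (hF y hy).1.2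
    rw [hsum] at h1 h2
    have h3 : ∑ i ∈ (univ.erase a).erase b, x i = ∑ i ∈ (univ.erase a).erase b, y i := by
      refine Finset.sum_congr rfl fun i hi => ?_
      rw [Finset.mem_erase, Finset.mem_erase] at hi
      exact hE x hx y hy i hi.2.1 hi.1
    rw [h3] at h1
    linarith
  have hinj : Set.InjOn (fun x : Fin n → ℤ => x a) (F : Set (Fin n → ℤ)) := by
    intro x hx y hy h
    have h' : x a = y a := h
    have h2 := hdif x hx y hy
    funext i
    by_cases hia : i = a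
    · rw [hia]
      exact h'
    by_cases hib : i = b
    · rw [hib]
      linarith
    exact hE x hx y hy i hia hib
  rw [← Finset.card_image_of_injOn hinj]
  have hD : 1 ≤ d a * d b := Nat.mul_pos (hd.1 a) (hd.1 b)
  have h := card_cong (d a * d b) hD M hM (F.image fun x => x a) ?_ ?_
  · rwa [Nat.cast_mul] at h
  · intro z hz
    obtain ⟨x, hx, rfl⟩ := Finset.mem_image.1 hz
    exact (hF x hx).2
  · intro z hz w hw
    obtain ⟨x, hx, rfl⟩ := Finset.mem_image.1 hz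
    obtain ⟨y, hy, rfl⟩ := Finset.mem_image.1 hw
    have h1 : (d a : ℤ) ∣ x a - y a := dvd_sub ((hF x hx).1.1 a).2 ((hF y hy).1.1 a).2
    have h2 : (d b : ℤ) ∣ x a - y a := by
      rw [hdif x hx y hy]
      exact (dvd_sub ((hF x hx).1.1 b).2 ((hF y hy).1.1 b).2).neg_right
    rw [Nat.cast_mul]
    exact (Nat.isCoprime_iff_coprime.2 (hd.2 a b hab)).mul_dvd h1 h2

/-- two large entries -/
theorem two_large {n : ℕ} (hn : 3 ≤ n) (x : Fin n → ℤ) (h0 : ∀ i, x i ≠ 0) (hs : ∑ i, x i = 0) :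
    ∃ a b : Fin n, a ≠ b ∧ (x a).natAbs = height x ∧ height x ≤ n * (x b).natAbs := by
  classical
  have hne : (univ : Finset (Fin n)).Nonempty := ⟨⟨0, by omega⟩, Finset.mem_univ _⟩
  obtain ⟨a, -, ha⟩ := Finset.exists_mem_eq_sup univ hne fun i => (x i).natAbs
  have ha' : (x a).natAbs = height x := ha.symm
  by_contra hcon
  have hb : ∀ b : Fin n, b ≠ a → n * (x b).natAbs < (x a).natAbs := by
    intro b hba
    by_contra h
    exact hcon ⟨a, b, hba.symm, ha', by rw [← ha']; omega⟩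
  have hpos : 0 < (x a).natAbs := Int.natAbs_pos.2 (h0 a)
  have h1 : (x a).natAbs ≤ ∑ i ∈ univ.erase a, (x i).natAbs := by
    have h2 : x a = -∑ i ∈ univ.erase a, x i := by
      have := Finset.add_sum_erase univ x (Finset.mem_univ a)
      linarith
    rw [h2, Int.natAbs_neg]
    exact Int.natAbs_sum_le _ _
  have h3 : n * ∑ i ∈ univ.erase a, (x i).natAbs ≤ (n - 1) * (x a).natAbs := by
    rw [Finset.mul_sum]
    calc ∑ i ∈ univ.erase a, n * (x i).natAbs ≤ ∑ _i ∈ univ.erase a, (x a).natAbs :=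
          Finset.sum_le_sum fun i hi => (hb i (Finset.ne_of_mem_erase hi)).le
      _ = (n - 1) * (x a).natAbs := by
          rw [Finset.sum_const, Finset.card_erase_of_mem (Finset.mem_univ a), Finset.card_univ,
            Fintype.card_fin, smul_eq_mul]
  have h4 : n * (x a).natAbs ≤ (n - 1) * (x a).natAbs := (Nat.mul_le_mul_left n h1).trans h3
  have h5 : (n - 1) * (x a).natAbs < n * (x a).natAbs :=
    Nat.mul_lt_mul_of_pos_right (by omega) hpos
  omega

theorem other {n : ℕ} (hn : 3 ≤ n) (h1 : T_CY) : ∃ C : ℝ, 0 < C ∧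
    ∀ (d : Fin n → ℕ) (τ ρ : ℝ) (a b : Fin n) (F : Finset (Fin n → ℤ)), PC d → a ≠ b → 1 ≤ τ →
      1 ≤ ρ → (∀ x ∈ F, Lt d x ∧ (pr x : ℝ) ≤ τ ^ n ∧ (height x : ℝ) ≤ 2 * ρ * τ ∧
        ρ * τ ≤ |(x a : ℝ)| ∧ ρ * τ ≤ n * |(x b : ℝ)|) →
      (F.card : ℝ) ≤ C * ρ ^ (-(1 / 2) : ℝ) *
        (τ ^ (n - 1) / (∏ i, (d i : ℝ)) + τ ^ (n - 2)) := by
  classical
  have hn0 : (0 : ℝ) < n := by
    have : 0 < n := by omega
    exact_mod_cast this
  have hn1 : (1 : ℝ) ≤ n := by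
    have : 1 ≤ n := by omega
    exact_mod_cast this
  have hθ0 : (0 : ℝ) < 1 - 1 / (2 * n) := by
    have : 1 / (2 * (n : ℝ)) < 1 := by
      rw [div_lt_one (by positivity)]
      linarith
    linarith
  have hθ1 : 1 - 1 / (2 * (n : ℝ)) < 1 := by
    have : 0 < 1 / (2 * (n : ℝ)) := by positivity
    linarith
  obtain ⟨C₀, hC₀, hCY⟩ := h1 (n - 2) (1 - 1 / (2 * n)) hθ0 hθ1
  refine ⟨4 * (C₀ * 2 ^ (n - 2) * n), by positivity, ?_⟩
  intro d τ ρ a b F hd hab hτ hρ hF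
  have hτ0 : 0 < τ := by linarith
  have hρ0 : 0 < ρ := by linarith
  let ι : Type := {i : Fin n // i ≠ a ∧ i ≠ b}
  have hmem : ∀ i : Fin n, i ∈ (univ.erase a).erase b ↔ (i ≠ a ∧ i ≠ b) := by
    intro i
    simp only [Finset.mem_erase, Finset.mem_univ, and_true]
    exact and_comm
  have hcard : Fintype.card ι = n - 2 := by
    rw [Fintype.card_subtype]
    have : univ.filter (fun i : Fin n => i ≠ a ∧ i ≠ b) = (univ.erase a).erase b := by
      ext i
      rw [hmem, Finset.mem_filter]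
      simp
    rw [this, Finset.card_erase_of_mem (Finset.mem_erase.2 ⟨hab.symm, Finset.mem_univ b⟩),
      Finset.card_erase_of_mem (Finset.mem_univ a), Finset.card_univ, Fintype.card_fin]
    omega
  let e : ι ≃ Fin (n - 2) := Fintype.equivFinOfCardEq hcard
  have hsplit : ∀ f : Fin n → ℝ, ∏ i, f i = f a * f b * ∏ j, f (e.symm j).1 := by
    intro f
    rw [← Finset.mul_prod_erase univ f (Finset.mem_univ a),
      ← Finset.mul_prod_erase (univ.erase a) f (Finset.mem_erase.2 ⟨hab.symm, Finset.mem_univ b⟩),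
      Equiv.prod_comp e.symm (fun i : ι => f i.1), ← Finset.prod_subtype _ hmem f]
    ring
  set D' : ℝ := ∏ j, (d (e.symm j).1 : ℝ) with hD'
  have hdR : ∀ i, (1 : ℝ) ≤ d i := fun i => by exact_mod_cast hd.1 i
  have hD'1 : 1 ≤ D' := by
    have h := Finset.prod_le_prod (s := univ) (f := fun _ : Fin (n - 2) => (1 : ℝ))
      (g := fun j => (d (e.symm j).1 : ℝ)) (fun _ _ => zero_le_one) (fun j _ => hdR _)
    rwa [Finset.prod_const_one] at h
  have hD'0 : 0 < D' := by linarith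
  let y : (Fin n → ℤ) → (Fin (n - 2) → ℤ) := fun x j => x (e.symm j).1 / (d (e.symm j).1 : ℤ)
  have hy : ∀ x ∈ F, ∀ j, x (e.symm j).1 = (d (e.symm j).1 : ℤ) * y x j := by
    intro x hx j
    exact (Int.mul_ediv_cancel' ((hF x hx).1.1 _).2).symm
  have hyR : ∀ x ∈ F, ∀ j, |(y x j : ℝ)| = |(x (e.symm j).1 : ℝ)| / d (e.symm j).1 := by
    intro x hx j
    have h2 : (x (e.symm j).1 : ℝ) = (d (e.symm j).1 : ℝ) * y x j := by exact_mod_cast hy x hx j
    have h3 := hdR (e.symm j).1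
    rw [h2, abs_mul, abs_of_pos (by linarith : (0 : ℝ) < d (e.symm j).1)]
    field_simp
  have habs : ∀ x ∈ F, ∀ i, |(x i : ℝ)| ≤ 2 * ρ * τ := by
    intro x hx i
    have h2 : (x i).natAbs ≤ height x := Finset.le_sup (f := fun i => (x i).natAbs)
      (Finset.mem_univ i)
    have h3 : |(x i : ℝ)| = ((x i).natAbs : ℝ) := by
      rw [Nat.cast_natAbs, Int.cast_abs]
    rw [h3]
    exact le_trans (by exact_mod_cast h2) (hF x hx).2.2.1
  have hprod : ∀ x : Fin n → ℤ, (pr x : ℝ) = ∏ i, |(x i : ℝ)| := by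
    intro x
    unfold pr
    rw [Nat.cast_natAbs, Int.cast_abs, Int.cast_prod, Finset.abs_prod]
  set A : ℝ := τ ^ (n - 2) / D' with hA
  have hA0 : 0 < A := by positivity
  -- the vectors
  have hG : ((F.image y).card : ℝ) ≤ C₀ * 2 ^ (n - 2) * n * (A * ρ ^ (-(3 / 2) : ℝ)) := by
    have h2 := hCY (fun j => 2 * ρ * τ / d (e.symm j).1) (A * (n / ρ ^ 2)) (F.image y)
      (fun j => by positivity) (by positivity) ?_
    · refine h2.trans ?_
      have h3 : ∏ j, (2 * ρ * τ / (d (e.symm j).1 : ℝ)) = A * (2 * ρ) ^ (n - 2) := by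
        rw [Finset.prod_div_distrib, Finset.prod_const, Finset.card_univ, Fintype.card_fin, ← hD',
          hA, mul_pow (2 * ρ) τ]
        ring
      rw [h3]
      have e1 : 1 - (1 - 1 / (2 * (n : ℝ))) = 1 / (2 * (n : ℝ)) := by ring
      rw [e1, Real.mul_rpow hA0.le (by positivity), Real.mul_rpow hA0.le (by positivity)]
      have h4 : A ^ (1 / (2 * (n : ℝ))) * A ^ (1 - 1 / (2 * (n : ℝ))) = A := by
        rw [← Real.rpow_add hA0]
        ring_nf
        exact Real.rpow_one A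
      have h5 : ((2 * ρ) ^ (n - 2)) ^ (1 / (2 * (n : ℝ))) ≤
          2 ^ (n - 2) * ρ ^ (1 / 2 - 1 / (n : ℝ)) := by
        rw [mul_pow, Real.mul_rpow (by positivity) (by positivity)]
        have h6 : ((2 : ℝ) ^ (n - 2)) ^ (1 / (2 * (n : ℝ))) ≤ 2 ^ (n - 2) := by
          calc ((2 : ℝ) ^ (n - 2)) ^ (1 / (2 * (n : ℝ))) ≤ ((2 : ℝ) ^ (n - 2)) ^ (1 : ℝ) := by
                refine Real.rpow_le_rpow_of_exponent_le (one_le_pow₀ (by norm_num)) ?_
                rw [div_le_one (by positivity)]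
                linarith
            _ = _ := Real.rpow_one _
        have h7 : (ρ ^ (n - 2)) ^ (1 / (2 * (n : ℝ))) = ρ ^ (1 / 2 - 1 / (n : ℝ)) := by
          rw [← Real.rpow_natCast, ← Real.rpow_mul hρ0.le, Nat.cast_sub (by omega)]
          congr 1
          push_cast
          field_simp
        rw [h7]
        exact mul_le_mul_of_nonneg_right h6 (by positivity)
      have h8 : ((n : ℝ) / ρ ^ 2) ^ (1 - 1 / (2 * (n : ℝ))) ≤ n * ρ ^ (-2 + 1 / (n : ℝ)) := by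
        rw [Real.div_rpow hn0.le (by positivity), div_eq_mul_inv]
        have h9 : (n : ℝ) ^ (1 - 1 / (2 * (n : ℝ))) ≤ n := by
          calc (n : ℝ) ^ (1 - 1 / (2 * (n : ℝ))) ≤ (n : ℝ) ^ (1 : ℝ) :=
                Real.rpow_le_rpow_of_exponent_le hn1 hθ1.le
            _ = _ := Real.rpow_one _
        have h10 : ((ρ ^ 2) ^ (1 - 1 / (2 * (n : ℝ))))⁻¹ = ρ ^ (-2 + 1 / (n : ℝ)) := by
          rw [← Real.rpow_natCast, ← Real.rpow_mul hρ0.le, ← Real.rpow_neg hρ0.le]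
          congr 1
          push_cast
          field_simp
          ring
        rw [h10]
        exact mul_le_mul_of_nonneg_right h9 (by positivity)
      have h11 : ρ ^ (1 / 2 - 1 / (n : ℝ)) * ρ ^ (-2 + 1 / (n : ℝ)) = ρ ^ (-(3 / 2) : ℝ) := by
        rw [← Real.rpow_add hρ0]
        congr 1
        ring
      calc C₀ * (A ^ (1 / (2 * (n : ℝ))) * ((2 * ρ) ^ (n - 2)) ^ (1 / (2 * (n : ℝ)))) *
            (A ^ (1 - 1 / (2 * (n : ℝ))) * ((n : ℝ) / ρ ^ 2) ^ (1 - 1 / (2 * (n : ℝ))))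
          = C₀ * (A ^ (1 / (2 * (n : ℝ))) * A ^ (1 - 1 / (2 * (n : ℝ)))) *
            (((2 * ρ) ^ (n - 2)) ^ (1 / (2 * (n : ℝ))) *
              ((n : ℝ) / ρ ^ 2) ^ (1 - 1 / (2 * (n : ℝ)))) := by ring
        _ ≤ C₀ * A * ((2 ^ (n - 2) * ρ ^ (1 / 2 - 1 / (n : ℝ))) *
              (n * ρ ^ (-2 + 1 / (n : ℝ)))) := by
            rw [h4]
            exact mul_le_mul_of_nonneg_left (mul_le_mul h5 h8 (by positivity) (by positivity))
              (by positivity)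
        _ = C₀ * 2 ^ (n - 2) * n * (A * (ρ ^ (1 / 2 - 1 / (n : ℝ)) * ρ ^ (-2 + 1 / (n : ℝ)))) := by
            ring
        _ = _ := by rw [h11]
    · intro g hg
      obtain ⟨x, hx, rfl⟩ := Finset.mem_image.1 hg
      obtain ⟨hL, hP, hH, hXa, hXb⟩ := hF x hx
      refine ⟨fun j => ⟨?_, ?_⟩, ?_⟩
      · intro h0
        have h3 := hy x hx j
        rw [h0, mul_zero] at h3
        exact (hL.1 _).1 h3
      · rw [hyR x hx j]
        have h3 := hdR (e.symm j).1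
        exact div_le_div_of_nonneg_right (habs x hx _) (by linarith)
      · rw [Finset.prod_congr rfl fun j _ => hyR x hx j, Finset.prod_div_distrib, ← hD']
        have h3 : |(x a : ℝ)| * |(x b : ℝ)| * ∏ j, |(x (e.symm j).1 : ℝ)| ≤ τ ^ n := by
          rw [← hsplit fun i => |(x i : ℝ)|, ← hprod]
          exact hP
        have h4 : (0 : ℝ) ≤ ∏ j, |(x (e.symm j).1 : ℝ)| := Finset.prod_nonneg fun j _ =>
          abs_nonneg _
        have h5 : (ρ * τ) * (ρ * τ) ≤ |(x a : ℝ)| * (n * |(x b : ℝ)|) :=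
          mul_le_mul hXa hXb (by positivity) (abs_nonneg _)
        have h6 : (ρ * τ) ^ 2 * ∏ j, |(x (e.symm j).1 : ℝ)| ≤ n * τ ^ n := by
          calc (ρ * τ) ^ 2 * ∏ j, |(x (e.symm j).1 : ℝ)|
              = (ρ * τ) * (ρ * τ) * ∏ j, |(x (e.symm j).1 : ℝ)| := by ring
            _ ≤ |(x a : ℝ)| * (n * |(x b : ℝ)|) * ∏ j, |(x (e.symm j).1 : ℝ)| :=
                mul_le_mul_of_nonneg_right h5 h4
            _ = n * (|(x a : ℝ)| * |(x b : ℝ)| * ∏ j, |(x (e.symm j).1 : ℝ)|) := by ring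
            _ ≤ n * τ ^ n := mul_le_mul_of_nonneg_left h3 hn0.le
        have h7 : τ ^ n = τ ^ (n - 2) * τ ^ 2 := by
          rw [← pow_add]
          congr 1
          omega
        have h8 : ∏ j, |(x (e.symm j).1 : ℝ)| ≤ n * τ ^ (n - 2) / ρ ^ 2 := by
          rw [le_div_iff₀ (by positivity)]
          have h9 : (0 : ℝ) < τ ^ 2 := by positivity
          have h10 : (∏ j, |(x (e.symm j).1 : ℝ)|) * ρ ^ 2 * τ ^ 2 ≤ n * τ ^ (n - 2) * τ ^ 2 := by
            rw [h7] at h6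
            calc (∏ j, |(x (e.symm j).1 : ℝ)|) * ρ ^ 2 * τ ^ 2
                = (ρ * τ) ^ 2 * ∏ j, |(x (e.symm j).1 : ℝ)| := by ring
              _ ≤ _ := h6
              _ = _ := by ring
          exact le_of_mul_le_mul_right h10 h9
        calc (∏ j, |(x (e.symm j).1 : ℝ)|) / D' ≤ (n * τ ^ (n - 2) / ρ ^ 2) / D' :=
              div_le_div_of_nonneg_right h8 hD'0.le
          _ = A * (n / ρ ^ 2) := by
              rw [hA]
              ring
  -- the fibres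
  have hK : ∀ g ∈ F.image y, (({x ∈ F | y x = g} : Finset (Fin n → ℤ)).card : ℝ) ≤
      1 + 2 * (2 * ρ * τ) / ((d a : ℝ) * d b) := by
    intro g _
    refine fib d a b (2 * ρ * τ) _ hd hab (by positivity) ?_ ?_
    · intro x hx
      rw [Finset.mem_filter] at hx
      exact ⟨(hF x hx.1).1, habs x hx.1 a⟩
    · intro x hx x' hx' i hia hib
      rw [Finset.mem_filter] at hx hx'
      have h2 : y x = y x' := hx.2.trans hx'.2.symm
      have h3 := congrFun h2 (e ⟨i, hia, hib⟩)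
      have h4 := hy x hx.1 (e ⟨i, hia, hib⟩)
      have h5 := hy x' hx'.1 (e ⟨i, hia, hib⟩)
      rw [Equiv.symm_apply_apply] at h4 h5
      have h6 : x i = (d i : ℤ) * y x (e ⟨i, hia, hib⟩) := h4
      have h7 : x' i = (d i : ℤ) * y x' (e ⟨i, hia, hib⟩) := h5
      rw [h6, h7, h3]
  have hda := hdR a
  have hdb := hdR b
  have hdab : (0 : ℝ) < (d a : ℝ) * d b := mul_pos (by linarith) (by linarith)
  have hAll : ∏ i, (d i : ℝ) = (d a : ℝ) * d b * D' := hsplit fun i => (d i : ℝ)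
  have hcF : (F.card : ℝ) ≤ ((F.image y).card : ℝ) * (1 + 2 * (2 * ρ * τ) / ((d a : ℝ) * d b)) := by
    rw [Finset.card_eq_sum_card_image y F]
    push_cast
    calc ∑ g ∈ F.image y, (({x ∈ F | y x = g} : Finset (Fin n → ℤ)).card : ℝ)
        ≤ ∑ _g ∈ F.image y, (1 + 2 * (2 * ρ * τ) / ((d a : ℝ) * d b)) := Finset.sum_le_sum hK
      _ = _ := by rw [Finset.sum_const, nsmul_eq_mul]
  have hρ32 : ρ ^ (-(3 / 2) : ℝ) ≤ ρ ^ (-(1 / 2) : ℝ) :=
    Real.rpow_le_rpow_of_exponent_le hρ (by norm_num)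
  have hρ12 : ρ ^ (-(3 / 2) : ℝ) * ρ = ρ ^ (-(1 / 2) : ℝ) := by
    nth_rewrite 2 [← Real.rpow_one ρ]
    rw [← Real.rpow_add hρ0]
    norm_num
  have hAle : A ≤ τ ^ (n - 2) := div_le_self (by positivity) hD'1
  have hτn : τ ^ (n - 1) = τ ^ (n - 2) * τ := by
    rw [← pow_succ]
    congr 1
    omega
  have hC1 : 0 ≤ C₀ * 2 ^ (n - 2) * n := by positivity
  have hKn : 0 ≤ 1 + 2 * (2 * ρ * τ) / ((d a : ℝ) * d b) := by positivity
  calc (F.card : ℝ) ≤ ((F.image y).card : ℝ) * (1 + 2 * (2 * ρ * τ) / ((d a : ℝ) * d b)) := hcF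
    _ ≤ (C₀ * 2 ^ (n - 2) * n * (A * ρ ^ (-(3 / 2) : ℝ))) *
        (1 + 2 * (2 * ρ * τ) / ((d a : ℝ) * d b)) := mul_le_mul_of_nonneg_right hG hKn
    _ = C₀ * 2 ^ (n - 2) * n * (A * ρ ^ (-(3 / 2) : ℝ) +
        4 * ((ρ ^ (-(3 / 2) : ℝ) * ρ) * (τ ^ (n - 1) / (∏ i, (d i : ℝ))))) := by
        rw [hAll, hτn, hA]
        field_simp
        ring
    _ ≤ C₀ * 2 ^ (n - 2) * n * (τ ^ (n - 2) * ρ ^ (-(1 / 2) : ℝ) +
        4 * (ρ ^ (-(1 / 2) : ℝ) * (τ ^ (n - 1) / (∏ i, (d i : ℝ))))) := by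
        rw [hρ12]
        refine mul_le_mul_of_nonneg_left ?_ hC1
        have : A * ρ ^ (-(3 / 2) : ℝ) ≤ τ ^ (n - 2) * ρ ^ (-(1 / 2) : ℝ) :=
          mul_le_mul hAle hρ32 (by positivity) (by positivity)
        linarith
    _ ≤ _ := by
        have h2 : 0 ≤ τ ^ (n - 2) * ρ ^ (-(1 / 2) : ℝ) := by positivity
        have h3 := mul_nonneg hC1 h2
        nlinarith

/-- DYA. -/
theorem pf_DYA (h1 : T_CY) : T_DYA := by
  intro n hn
  classical
  obtain ⟨C, hC, hO⟩ := other hn h1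
  refine ⟨(n : ℝ) ^ 2 * C, by positivity, ?_⟩
  intro d T ρ F hd hT hρ hF
  have hn0 : (0 : ℝ) < n := by
    have : 0 < n := by omega
    exact_mod_cast this
  have hT0 : 0 < T := by linarith
  set τ : ℝ := T ^ (1 / (n : ℝ)) with hτ
  have hτ1 : 1 ≤ τ := Real.one_le_rpow hT (by positivity)
  have hτ0 : 0 < τ := by linarith
  have hτn : τ ^ n = T := by
    rw [hτ, ← Real.rpow_natCast, ← Real.rpow_mul hT0.le, one_div_mul_cancel hn0.ne',
      Real.rpow_one]
  have hp1 : T ^ (1 - 1 / (n : ℝ)) = τ ^ (n - 1) := by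
    rw [hτ, ← Real.rpow_natCast, ← Real.rpow_mul hT0.le, Nat.cast_sub (by omega)]
    congr 1
    push_cast
    field_simp
  have hp2 : T ^ (1 - 2 / (n : ℝ)) = τ ^ (n - 2) := by
    rw [hτ, ← Real.rpow_natCast, ← Real.rpow_mul hT0.le, Nat.cast_sub (by omega)]
    congr 1
    push_cast
    field_simp
  rw [hp1, hp2]
  set B : ℝ := C * ρ ^ (-(1 / 2) : ℝ) * (τ ^ (n - 1) / (∏ i, (d i : ℝ)) + τ ^ (n - 2)) with hB
  have hab : ∀ z : ℤ, |(z : ℝ)| = (z.natAbs : ℝ) := fun z => by rw [Nat.cast_natAbs, Int.cast_abs]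
  have hcov : F ⊆ (univ : Finset (Fin n × Fin n)).biUnion fun q =>
      {x ∈ F | q.1 ≠ q.2 ∧ ρ * τ ≤ |(x q.1 : ℝ)| ∧ ρ * τ ≤ n * |(x q.2 : ℝ)|} := by
    intro x hx
    obtain ⟨hL, hP, hH1, hH2⟩ := hF x hx
    obtain ⟨a, b, hne, ha, hb⟩ := two_large hn x (fun i => (hL.1 i).1) hL.2
    rw [Finset.mem_biUnion]
    refine ⟨(a, b), Finset.mem_univ _, Finset.mem_filter.2 ⟨hx, hne, ?_, ?_⟩⟩
    · rw [hab, ha]
      exact hH1
    · rw [hab]
      refine hH1.trans ?_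
      exact_mod_cast hb
  have hone : ∀ q : Fin n × Fin n, (({x ∈ F | q.1 ≠ q.2 ∧ ρ * τ ≤ |(x q.1 : ℝ)| ∧
      ρ * τ ≤ n * |(x q.2 : ℝ)|} : Finset (Fin n → ℤ)).card : ℝ) ≤ B := by
    intro q
    by_cases hq : q.1 ≠ q.2
    · refine hO d τ ρ q.1 q.2 _ hd hq hτ1 hρ ?_
      intro x hx
      rw [Finset.mem_filter] at hx
      obtain ⟨hL, hP, hH1, hH2⟩ := hF x hx.1
      exact ⟨hL, by rw [hτn]; exact hP, hH2, hx.2.2.1, hx.2.2.2⟩
    · have : ({x ∈ F | q.1 ≠ q.2 ∧ ρ * τ ≤ |(x q.1 : ℝ)| ∧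
        ρ * τ ≤ n * |(x q.2 : ℝ)|} : Finset (Fin n → ℤ)) = ∅ := by
        refine Finset.filter_false_of_mem fun x _ h => hq h.1
      rw [this, Finset.card_empty, Nat.cast_zero, hB]
      have : 0 ≤ ∏ i, (d i : ℝ) := Finset.prod_nonneg fun i _ => Nat.cast_nonneg _
      positivity
  calc (F.card : ℝ) ≤ (((univ : Finset (Fin n × Fin n)).biUnion fun q =>
      {x ∈ F | q.1 ≠ q.2 ∧ ρ * τ ≤ |(x q.1 : ℝ)| ∧ ρ * τ ≤ n * |(x q.2 : ℝ)|}).card : ℝ) := by
        exact_mod_cast Finset.card_le_card hcov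
    _ ≤ ∑ q : Fin n × Fin n, (({x ∈ F | q.1 ≠ q.2 ∧ ρ * τ ≤ |(x q.1 : ℝ)| ∧
      ρ * τ ≤ n * |(x q.2 : ℝ)|} : Finset (Fin n → ℤ)).card : ℝ) := by
        exact_mod_cast Finset.card_biUnion_le
    _ ≤ ∑ _q : Fin n × Fin n, B := Finset.sum_le_sum fun q _ => hone q
    _ = (n : ℝ) ^ 2 * B := by
        rw [Finset.sum_const, Finset.card_univ, Fintype.card_prod, Fintype.card_fin, nsmul_eq_mul]
        push_cast
        ring
    _ = _ := by
        rw [hB]
        ring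

end Pool.Agent.H38.EQ
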