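import Pool.Agent.H38.EQ.Pol
import Pool.Agent.H41.VG.CHR
import Pool.Agent.H41.VG.CHN
import Pool.Agent.H65.VG.SMO
import Pool.Agent.H90.VG.DIV
import Pool.Agent.H73.VG.PIO
import Pool.Agent.H73.VG.PRD
import Pool.Agent.H73.VG.LVM

/-!
# The push-forward of `|det|² dz` is translation invariant (row G1 of the board `eqd_modules`)
-/

set_option autoImplicit false

namespace Pool.Agent.H38.EQ

open scoped BigOperators ComplexConjugate ContDiff ComplexOrder
open MeasureTheory Pool.Agent.H92.EQ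

open Pool.Agent.H95.VG (V ek dz dzb cf T_SMO T_LIN T_PRD T_LVM T_CHN T_CHR T_DIV T_PIO)

theorem tSMO : T_SMO := Pool.Agent.H65.VG.smo
theorem tLIN : T_LIN := Pool.Agent.H73.VG.lin
theorem tPRD : T_PRD := Pool.Agent.H73.VG.prd
theorem tLVM : T_LVM := Pool.Agent.H73.VG.lvm
theorem tCHN : T_CHN := Pool.Agent.H41.VG.chn tSMO
theorem tCHR : T_CHR := Pool.Agent.H41.VG.chr tLIN tLVM tCHN
theorem tDIV : T_DIV := Pool.Agent.H90.VG.div tSMO tLIN tPRD
theorem tPIO : T_PIO := Pool.Agent.H73.VG.pio tSMO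

/-- the derivative of a polynomial -/
theorem pol_hasF {N : ℕ} (P : MvPolynomial (Fin N) ℂ) (z : Fin N → ℂ) :
    HasFDerivAt (𝕜 := ℂ) (fun w : Fin N → ℂ => MvPolynomial.eval w P)
      (∑ j, MvPolynomial.eval z (MvPolynomial.pderiv j P) •
        (ContinuousLinearMap.proj j : (Fin N → ℂ) →L[ℂ] ℂ)) z := by
  induction P using MvPolynomial.induction_on with
  | C a =>
    have e : (fun w : Fin N → ℂ => MvPolynomial.eval w (MvPolynomial.C a)) = fun _ => a := by
      funext w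
      simp
    rw [e]
    refine (hasFDerivAt_const a z).congr_fderiv ?_
    ext1 v
    simp
  | add p q hp hq =>
    have e : (fun w : Fin N → ℂ => MvPolynomial.eval w (p + q)) =
        fun w => MvPolynomial.eval w p + MvPolynomial.eval w q := by
      funext w
      simp
    rw [e]
    refine (hp.add hq).congr_fderiv ?_
    ext1 v
    simp [Finset.sum_add_distrib, add_mul]
  | mul_X p i hp =>
    have h1 : HasFDerivAt (𝕜 := ℂ) (fun w : Fin N → ℂ => w i)
        (ContinuousLinearMap.proj i : (Fin N → ℂ) →L[ℂ] ℂ) z :=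
      (ContinuousLinearMap.proj i : (Fin N → ℂ) →L[ℂ] ℂ).hasFDerivAt
    have h2 := hp.mul h1
    simp only [map_mul, MvPolynomial.eval_X]
    refine h2.congr_fderiv ?_
    ext1 v
    simp only [FunLike.coe_sum, Finset.sum_apply, add_apply, smul_apply,
      ContinuousLinearMap.proj_apply, smul_eq_mul, Derivation.leibniz,
      MvPolynomial.pderiv_X, map_add, map_mul, MvPolynomial.eval_X, add_mul,
      Finset.sum_add_distrib, Finset.mul_sum]
    have h3 : ∑ j, MvPolynomial.eval z p * (MvPolynomial.eval z (Pi.single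
        (M := fun _ => MvPolynomial (Fin N) ℂ) j 1 i)) * v j =
        MvPolynomial.eval z p * v i := by
      rw [Finset.sum_eq_single i]
      · simp
      · intro j _ hj
        rw [Pi.single_eq_of_ne (Ne.symm hj)]
        simp
      · intro h
        exact absurd (Finset.mem_univ i) h
    rw [h3]
    congr 1
    refine Finset.sum_congr rfl fun j _ => ?_
    ring

theorem ev_hasF {N : ℕ} (Φ : Fin N → MvPolynomial (Fin N) ℂ) (z : Fin N → ℂ) :
    HasFDerivAt (𝕜 := ℂ) (ev Φ) (ContinuousLinearMap.pi fun i =>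
      ∑ j, MvPolynomial.eval z (MvPolynomial.pderiv j (Φ i)) •
        (ContinuousLinearMap.proj j : (Fin N → ℂ) →L[ℂ] ℂ)) z :=
  hasFDerivAt_pi.mpr fun i => pol_hasF (Φ i) z

theorem jac_eq {N : ℕ} (Φ : Fin N → MvPolynomial (Fin N) ℂ) (z : Fin N → ℂ) :
    Pool.Agent.H95.VG.jac (ev Φ) z = jac Φ z := by
  funext i j
  show fderiv ℂ (ev Φ) z (ek j) i = MvPolynomial.eval z (MvPolynomial.pderiv j (Φ i))
  rw [(ev_hasF Φ z).fderiv]
  simp only [ContinuousLinearMap.coe_pi', FunLike.coe_sum, Finset.sum_apply,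
    smul_apply, ContinuousLinearMap.proj_apply, smul_eq_mul]
  rw [Finset.sum_eq_single j]
  · simp [ek]
  · intro k _ hk
    simp [ek, Pi.single_eq_of_ne hk]
  · intro h
    exact absurd (Finset.mem_univ j) h

theorem det_diff {N : ℕ} (Φ : Fin N → MvPolynomial (Fin N) ℂ) :
    Differentiable ℂ fun z => (jac Φ z).det := by
  have h : (fun z => (jac Φ z).det) = fun z => MvPolynomial.eval z (detP Φ) := by
    funext z
    unfold detP
    rw [RingHom.map_det]
    rfl
  rw [h]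
  exact fun z => (pol_hasF _ z).differentiableAt

/-- homogeneous maps without zeros are proper -/
theorem proper_supp {N D : ℕ} (Φ : Fin N → MvPolynomial (Fin N) ℂ) (hD : 1 ≤ D) (hΦ : IsH D Φ)
    (hN : 0 < N) (f : (Fin N → ℂ) → ℂ) (hf : HasCompactSupport f) :
    HasCompactSupport fun z => f (ev Φ z) := by
  have : Nonempty (Fin N) := ⟨⟨0, hN⟩⟩
  have hcont : Continuous (ev Φ) := (ev_smooth Φ).continuous
  have hsph : IsCompact (Metric.sphere (0 : Fin N → ℂ) 1) := isCompact_sphere _ _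
  have hne : (Metric.sphere (0 : Fin N → ℂ) 1).Nonempty :=
    NormedSpace.sphere_nonempty.mpr zero_le_one
  obtain ⟨z₀, hz₀, hmin⟩ := hsph.exists_isMinOn hne hcont.norm.continuousOn
  set c := ‖ev Φ z₀‖ with hc
  have hc0 : 0 < c := by
    rw [hc, norm_pos_iff]
    intro h0
    have := hΦ.nd z₀ h0
    rw [this] at hz₀
    simp at hz₀
  obtain ⟨R, hR⟩ := hf.isCompact.isBounded.subset_closedBall (0 : Fin N → ℂ)
  refine HasCompactSupport.of_support_subset_isCompact
    (isCompact_closedBall (0 : Fin N → ℂ) (max 1 (R / c))) ?_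
  intro z hz
  rw [mem_closedBall_zero_iff]
  by_contra hcon
  push Not at hcon
  have h1 : 1 < ‖z‖ := lt_of_le_of_lt (le_max_left _ _) hcon
  have h2 : R / c < ‖z‖ := lt_of_le_of_lt (le_max_right _ _) hcon
  have hz0 : ‖z‖ ≠ 0 := by linarith
  have h3 : ev Φ z ∈ Metric.closedBall (0 : Fin N → ℂ) R :=
    hR (subset_tsupport f (by
      intro h0
      exact hz h0))
  rw [mem_closedBall_zero_iff] at h3
  set u : Fin N → ℂ := ((‖z‖ : ℂ)⁻¹) • z with hu
  have hu1 : ‖u‖ = 1 := by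
    rw [hu, norm_smul, norm_inv, Complex.norm_real, norm_norm]
    exact inv_mul_cancel₀ hz0
  have hzu : z = (‖z‖ : ℂ) • u := by
    rw [hu, smul_smul, mul_inv_cancel₀ (by exact_mod_cast hz0), one_smul]
  have h4 : ‖ev Φ z‖ = ‖z‖ ^ D * ‖ev Φ u‖ := by
    conv_lhs => rw [hzu]
    rw [ev_hom Φ hΦ.hom, norm_smul, norm_pow, Complex.norm_real, norm_norm]
  have h5 : c ≤ ‖ev Φ u‖ := hmin (by simpa using hu1)
  have h6 : ‖z‖ ≤ ‖z‖ ^ D := le_self_pow₀ h1.le (by omega)
  have h7 : R < c * ‖z‖ := by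
    rw [div_lt_iff₀ hc0] at h2
    linarith
  have h8 : c * ‖z‖ ≤ ‖z‖ ^ D * ‖ev Φ u‖ := by
    calc c * ‖z‖ = ‖z‖ * c := mul_comm _ _
      _ ≤ ‖z‖ ^ D * ‖ev Φ u‖ := mul_le_mul h6 h5 hc0.le (by positivity)
  linarith

theorem g1_bar {N D : ℕ} (Φ : Fin N → MvPolynomial (Fin N) ℂ) (hD : 1 ≤ D) (hΦ : IsH D Φ)
    (f : (Fin N → ℂ) → ℂ) (a : Fin N) (hf : ContDiff ℝ ∞ f) (hfc : HasCompactSupport f) :
    ∫ z, ((‖(jac Φ z).det‖ ^ 2 : ℝ) : ℂ) * wdb a f (ev Φ z) = 0 := by
  have hN : 0 < N := lt_of_le_of_lt (Nat.zero_le _) a.2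
  have hY : DifferentiableOn ℂ (ev Φ) Set.univ :=
    fun z _ => (ev_hasF Φ z).differentiableAt.differentiableWithinAt
  obtain ⟨hF, hdiv⟩ := tPIO N Set.univ (ev Φ) isOpen_univ hY a
  have hG : ContDiff ℝ 1 fun z => f (ev Φ z) :=
    (hf.comp (ev_smooth Φ)).of_le (WithTop.coe_le_coe.2 le_top)
  have hGc := proper_supp Φ hD hΦ hN f hfc
  have h := tDIV N Set.univ (cf (ev Φ) a) (fun z => (jac Φ z).det) (fun z => f (ev Φ z))
    isOpen_univ hF hdiv (det_diff Φ).differentiableOn hG hGc (Set.subset_univ _)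
  rw [setIntegral_univ] at h
  rw [← h]
  refine integral_congr_ae (Filter.Eventually.of_forall fun z => ?_)
  have h1 := ((tCHR N Set.univ (ev Φ) isOpen_univ hY z (Set.mem_univ z) a).2.1 f
    ((hf.differentiable (by simp)) _)).2
  show ((‖(jac Φ z).det‖ ^ 2 : ℝ) : ℂ) * wdb a f (ev Φ z) =
    (jac Φ z).det * dzb (fun x => f (ev Φ x)) z (cf (ev Φ) a z)
  rw [h1, jac_eq]
  have h2 : wdb a f (ev Φ z) = dzb f (ev Φ z) (ek a) := by
    unfold wdb dzb ek
    have : (Complex.I • (Pi.single a 1 : Fin N → ℂ)) = Pi.single a Complex.I := by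
      rw [← Pi.single_smul, smul_eq_mul, mul_one]
    rw [this]
  rw [h2, ← mul_assoc, Complex.mul_conj, Complex.normSq_eq_norm_sq]

theorem pf_G1 : T_G1 := by
  intro N D Φ hD hΦ f a hf hfc
  refine ⟨?_, g1_bar Φ hD hΦ f a hf hfc⟩
  have hf' : ContDiff ℝ ∞ fun z => conj (f z) := Complex.conjCLE.contDiff.comp hf
  have hfc' : HasCompactSupport fun z => conj (f z) := hfc.comp_left (g := conj) (by simp)
  have h := g1_bar Φ hD hΦ (fun z => conj (f z)) a hf' hfc'
  have h2 : ∀ w, wdb a (fun z => conj (f z)) w = conj (wd a f w) := by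
    intro w
    have hd : HasFDerivAt (fun z => conj (f z))
        ((Complex.conjCLE : ℂ →L[ℝ] ℂ).comp (fderiv ℝ f w)) w :=
      (Complex.conjCLE : ℂ →L[ℝ] ℂ).hasFDerivAt.comp w
        ((hf.differentiable (by simp)) w).hasFDerivAt
    unfold wdb wd
    rw [hd.fderiv]
    have e2 : (starRingEnd ℂ) 2 = 2 := map_ofNat _ 2
    simp [e2]
  have h3 : ∫ z, ((‖(jac Φ z).det‖ ^ 2 : ℝ) : ℂ) * wdb a (fun z => conj (f z)) (ev Φ z) =
      conj (∫ z, ((‖(jac Φ z).det‖ ^ 2 : ℝ) : ℂ) * wd a f (ev Φ z)) := by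
    rw [← integral_conj]
    refine integral_congr_ae (Filter.Eventually.of_forall fun z => ?_)
    simp only [h2, map_mul, Complex.conj_ofReal]
  rw [h3] at h
  have h4 := congrArg conj h
  simpa using h4

end Pool.Agent.H38.EQ
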