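import Pool.Agent.H38.EQ.Pol

/-!
# Linear combinations of log-homogeneous functions (row L1 of the board `eqd_modules`)
-/

set_option autoImplicit false

namespace Pool.Agent.H38.EQ

open scoped BigOperators ComplexConjugate ContDiff ComplexOrder
open MeasureTheory Pool.Agent.H92.EQ

theorem pf_L1 : T_L1 := by
  intro N c c' α β u v
  refine ⟨?_, ?_, ?_, ?_⟩
  · intro hu hv
    refine ⟨(contDiffOn_const.mul hu.smooth).add (contDiffOn_const.mul hv.smooth), ?_⟩
    intro l z hl hz
    simp only [hu.hom l z hl hz, hv.hom l z hl hz]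
    ring
  · constructor
    · intro hu
      exact ⟨hu.smooth, fun l z hl hz => by rw [hu.hom l z hl hz]; ring⟩
    · intro hu
      exact ⟨hu.smooth, fun l z hl hz => by rw [hu.hom l z hl hz]; ring⟩
  · intro hu
    exact ⟨hu.smooth, fun l z hl hz => by rw [hu.loghom l z hl hz]; ring⟩
  · intro D G hG hu
    refine ⟨?_, ?_⟩
    · refine hu.smooth.comp (ev_smooth G).contDiffOn ?_
      intro z hz h0
      exact hz (hG.nd z h0)
    · intro l z hl hz
      show u (ev G (l • z)) = u (ev G z) + D * c * Real.log ‖l‖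
      rw [ev_hom G hG.hom l z, hu.hom (l ^ D) (ev G z) (pow_ne_zero D hl)
        (fun h0 => hz (hG.nd z h0)), norm_pow, Real.log_pow]
      ring

end Pool.Agent.H38.EQ
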