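import Pool.Agent.H38.EQ.Pol

/-!
# Potentials from polynomials without common zero (row L4 of the board `eqd_modules`)
-/

set_option autoImplicit false

namespace Pool.Agent.H38.EQ

open scoped BigOperators ComplexConjugate ContDiff ComplexOrder
open MeasureTheory Pool.Agent.H92.EQ

theorem pf_L4 (hW9 : T_W9) (hW4 : T_W4) (hW6 : T_W6) : T_L4 := by
  intro N M κ _ _ g hM hg hnd
  have hM0 : (0 : ℝ) < M := by exact_mod_cast hM
  have hmap : Set.MapsTo (ev g) ({0}ᶜ : Set (Fin N → ℂ)) ({0}ᶜ : Set (κ → ℂ)) :=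
    fun z hz => hnd z hz
  have hsm : ContDiffOn ℝ ∞ (fun z => ell (ev g z)) ({0}ᶜ : Set (Fin N → ℂ)) :=
    (hW9 κ).1.comp (ev_smooth g).contDiffOn hmap
  refine ⟨contDiffOn_const.mul hsm, ?_, ?_⟩
  · intro l z hl hz
    show 1 / (M : ℝ) * ell (ev g (l • z)) = 1 / (M : ℝ) * ell (ev g z) + Real.log ‖l‖
    rw [ev_hom g hg l z, ell_smul (pow_ne_zero M hl) (hnd z hz), norm_pow, Real.log_pow]
    field_simp
  · intro z hz
    have hU : IsOpen ({0}ᶜ : Set (Fin N → ℂ)) := isOpen_compl_singleton
    have h1 := hessR_lin hW6 (fun z => ell (ev g z)) (fun z => ell (ev g z)) {0}ᶜ hU hsm hsm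
      (1 / (M : ℝ)) 0 z hz
    have e1 : (fun w => 1 / (M : ℝ) * ell (ev g w) + 0 * ell (ev g w)) =
        fun w => 1 / (M : ℝ) * ell (ev g w) := by
      funext w
      ring
    rw [e1] at h1
    rw [h1]
    have hpsd : (hessR (fun z => ell (ev g z)) z).PosSemidef := by
      have hz' : ev g z ≠ 0 := hnd z hz
      have hcd : ContDiffAt ℝ 2 (cx (ell : (κ → ℂ) → ℝ)) (ev g z) := by
        have h2 : ContDiffOn ℝ ∞ (fun w : κ → ℂ => ((ell w : ℝ) : ℂ)) {0}ᶜ := cx_smooth (hW9 κ).1
        exact (h2.contDiffAt (isOpen_compl_singleton.mem_nhds hz')).of_le (WithTop.coe_le_coe.2 le_top)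
      have h2 := hW4 κ (Fin N) g (cx ell) z hcd
      have h3 : hessR (fun z => ell (ev g z)) z =
          (Matrix.of fun i a => conj (jac g z i a)).conjTranspose * hessR ell (ev g z) *
            (Matrix.of fun i a => conj (jac g z i a)) := by
        funext a b
        have h4 := h2 a b
        show hess (fun w => cx ell (ev g w)) z a b = _
        rw [h4, Matrix.mul_apply]
        simp only [Matrix.mul_apply, Matrix.conjTranspose_apply, Matrix.of_apply,
          starRingEnd_apply, star_star, Finset.sum_mul]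
        rw [Finset.sum_comm]
        refine Finset.sum_congr rfl fun j _ => Finset.sum_congr rfl fun i _ => ?_
        show jac g z i a * star (jac g z j b) * hessR ell (ev g z) i j = _
        ring
      rw [h3]
      exact ((hW9 κ).2 (ev g z) hz').2.2.2.1.conjTranspose_mul_mul_same _
    have h0 : (0 : ℂ) ≤ ((1 / (M : ℝ) : ℝ) : ℂ) := by
      rw [Complex.zero_le_real]
      positivity
    have h5 := hpsd.smul h0
    have e2 : (((0 : ℝ) : ℂ)) • hessR (fun z => ell (ev g z)) z = 0 := by
      rw [Complex.ofReal_zero, zero_smul]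
    rw [e2, add_zero]
    exact h5

end Pool.Agent.H38.EQ
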