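import Pool.Agent.H38.EQ.Pol

/-!
# Linearity and symmetry in the slots (row P2 of the board `eqd_modules`)
-/

set_option autoImplicit false

namespace Pool.Agent.H38.EQ

open scoped BigOperators ComplexConjugate ContDiff ComplexOrder
open MeasureTheory Pool.Agent.H92.EQ

theorem Q_lin (hA1 : T_A1) (hW6 : T_W6) {N p q : ℕ} (S : Form (Fin N) p)
    (u : Fin q → (Fin N → ℂ) → ℝ) (j : Fin q) (v w : (Fin N → ℂ) → ℝ) (α β : ℝ)
    (hv : ContDiffOn ℝ ∞ v {0}ᶜ) (hw : ContDiffOn ℝ ∞ w {0}ᶜ) (z : Fin N → ℂ) (hz : z ≠ 0) :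
    Q S (Function.update u j (fun z => α * v z + β * w z)) z =
      α * Q S (Function.update u j v) z + β * Q S (Function.update u j w) z := by
  have hup : ∀ y : (Fin N → ℂ) → ℝ, (fun i => hessR (Function.update u j y i) z) =
      Function.update (fun i => hessR (u i) z) j (hessR y z) := by
    intro y
    funext i
    by_cases hi : i = j
    · subst hi
      simp
    · simp [Function.update_of_ne hi]
  unfold Q
  rw [hup, hup, hup, Fin.snoc_update, Fin.snoc_update, Fin.snoc_update,
    hessR_lin hW6 v w {0}ᶜ isOpen_compl_singleton hv hw α β z hz]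
  set H := Fin.snoc (α := fun _ => Matrix (Fin N) (Fin N) ℂ) (fun i => hessR (u i) z) (Rad z)
  rw [(hA1 (Fin N) p (q + 1) (S z) (S z) H j.castSucc ((α : ℂ) • hessR v z)
    ((β : ℂ) • hessR w z) 1).1]
  rw [(hA1 (Fin N) p (q + 1) (S z) (S z) H j.castSucc (hessR v z) (hessR v z) (α : ℂ)).2.1,
    (hA1 (Fin N) p (q + 1) (S z) (S z) H j.castSucc (hessR w z) (hessR w z) (β : ℂ)).2.1]
  rw [Complex.add_re, Complex.re_ofReal_mul, Complex.re_ofReal_mul]

theorem pf_P2 (hA1 : T_A1) (hA2 : T_A2) (hW6 : T_W6) : T_P2 := by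
  intro N p q S u c j v w c1 c2 α β φ hN hS hu hv hw i1 i2
  refine ⟨?_, ?_⟩
  · have : Nonempty (Fin N) := ⟨⟨0, by omega⟩⟩
    have h0 : ∀ᵐ z : Fin N → ℂ, z ≠ 0 := by
      have := measure_singleton (μ := (volume : Measure (Fin N → ℂ))) (0 : Fin N → ℂ)
      exact (measure_eq_zero_iff_ae_notMem.1 this)
    unfold pair Iint
    rw [← integral_const_mul, ← integral_const_mul, ← integral_add (i1.const_mul α)
      (i2.const_mul β)]
    refine integral_congr_ae (ae_restrict_of_ae ?_)
    filter_upwards [h0] with z hz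
    rw [Q_lin hA1 hW6 S u j v w α β hv.smooth hw.smooth z hz]
    ring
  · intro π
    unfold pair
    congr 1
    funext z
    congr 1
    unfold Q
    congr 1
    set π' : Equiv.Perm (Fin (q + 1)) :=
      finSuccEquivLast.trans ((Equiv.optionCongr π).trans finSuccEquivLast.symm) with hπ'
    have h := hA2 (Fin N) p (q + 1) (S z) (Fin.snoc (α := fun _ => Matrix (Fin N) (Fin N) ℂ)
      (fun j => hessR (u j) z) (Rad z)) π'
    rw [← h]
    congr 1
    funext i
    refine Fin.lastCases ?_ (fun i => ?_) i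
    · rw [Fin.snoc_last]
      have : π' (Fin.last q) = Fin.last q := by
        simp [hπ']
      rw [this, Fin.snoc_last]
    · rw [Fin.snoc_castSucc]
      have : π' i.castSucc = (π i).castSucc := by
        simp [hπ']
      rw [this, Fin.snoc_castSucc]

end Pool.Agent.H38.EQ
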