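import Pool.Agent.H38.EQ.Targets

/-!
# Row SQL of EQ (MP_7ecdd4_nt): small height and a very large squarefull part
-/

set_option autoImplicit false

open Finset

namespace Pool.Agent.H38.EQ

open Pool.Agent.H38.AE.Statement (Admissible radical)
open Pool.Agent.H38.AT (height)
open Pool.Agent.H82.AS (Sqf ex)

theorem sq_mul_dvd (h3 : Pool.Agent.H82.AS.T_SQB) (m k : ℕ) (hm : 1 ≤ m) (hk : 1 ≤ k)
    (h : m.Coprime k) : H82.AS.sq (m * k) ∣ H82.AS.sq m * H82.AS.sq k := by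
  obtain ⟨b1, b2, -, -, -, -, -⟩ := h3 (m * k) (Nat.mul_pos hm hk)
  have hD : H82.AS.sq (m * k) = Nat.gcd (H82.AS.sq (m * k)) m * Nat.gcd (H82.AS.sq (m * k)) k := by
    rw [← Nat.Coprime.gcd_mul _ h]
    exact (Nat.gcd_eq_left b2).symm
  have key : ∀ a b : ℕ, 1 ≤ a → a.Coprime b →
      H82.AS.sq (m * k) = Nat.gcd (H82.AS.sq (m * k)) a * Nat.gcd (H82.AS.sq (m * k)) b →
      Nat.gcd (H82.AS.sq (m * k)) a ∣ H82.AS.sq a := by
    intro a b ha hab he
    refine (h3 a ha).2.2.2.1 _ ?_ (Nat.gcd_dvd_right _ _)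
    intro p hp hpd
    have hpD : p ∣ H82.AS.sq (m * k) := hpd.trans (Nat.gcd_dvd_left _ _)
    have hpa : p ∣ a := hpd.trans (Nat.gcd_dvd_right _ _)
    have h4 := b1 p hp hpD
    rw [he] at h4
    refine Nat.Coprime.dvd_of_dvd_mul_right ?_ h4
    refine Nat.Coprime.pow_left 2 ?_
    rw [Nat.Prime.coprime_iff_not_dvd hp]
    intro h5
    have h6 : p ∣ b := h5.trans (Nat.gcd_dvd_right _ _)
    exact Nat.not_coprime_of_dvd_of_dvd hp.one_lt hpa h6 hab
  have hD2 : H82.AS.sq (m * k) =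
      Nat.gcd (H82.AS.sq (m * k)) k * Nat.gcd (H82.AS.sq (m * k)) m := hD.trans (mul_comm _ _)
  have h5 := mul_dvd_mul (key m k hm h hD) (key k m hk h.symm hD2)
  rwa [← hD] at h5

theorem sq_prod_dvd (h3 : Pool.Agent.H82.AS.T_SQB) {ι : Type} (s : Finset ι) (a : ι → ℕ)
    (ha : ∀ i, 1 ≤ a i) (hc : ∀ i j, i ≠ j → (a i).Coprime (a j)) :
    H82.AS.sq (∏ i ∈ s, a i) ∣ ∏ i ∈ s, H82.AS.sq (a i) := by
  classical
  induction s using Finset.induction_on with
  | empty =>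
    rw [Finset.prod_empty, Finset.prod_empty]
    exact (h3 1 le_rfl).2.1
  | insert i s hi ih =>
    rw [Finset.prod_insert hi, Finset.prod_insert hi]
    have h4 : (a i).Coprime (∏ j ∈ s, a j) := Nat.Coprime.prod_right fun j hj =>
      hc i j fun h => hi (h ▸ hj)
    have h5 : 1 ≤ ∏ j ∈ s, a j := Finset.prod_pos (f := a) fun j _ => ha j
    exact (sq_mul_dvd h3 _ _ (ha i) h5 h4).trans (mul_dvd_mul_left _ ih)

theorem pr_eq {n : ℕ} (x : Fin n → ℤ) : pr x = ∏ i, (x i).natAbs :=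
  map_prod Int.natAbsHom x Finset.univ

/-- SQL. -/
theorem pf_SQL (h1 : T_BXN) (h2 : T_SQN) (h3 : Pool.Agent.H82.AS.T_SQB) : T_SQL := by
  intro n hn η hη
  classical
  have hn0 : (0 : ℝ) < n := by
    have : 0 < n := by omega
    exact_mod_cast this
  obtain ⟨C₁, hC₁, hB⟩ := h1 n hn
  obtain ⟨C₂, hC₂, hS⟩ := h2 n hn
  refine ⟨η / (16 * (n : ℝ) ^ 3), η / (16 * (n : ℝ) ^ 2), n * (2 * C₁ * C₂), by positivity,
    by positivity, by positivity, ?_⟩
  intro X F hX hF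
  have hX0 : 0 < X := by linarith
  set ε₀ : ℝ := η / (16 * (n : ℝ) ^ 3) with hε₀
  have hε0 : 0 < ε₀ := by positivity
  set H : ℝ := X ^ (1 / (n : ℝ) + ε₀) with hH
  set Z : ℝ := X ^ (η / (n : ℝ)) with hZ
  have hH1 : 1 ≤ H := Real.one_le_rpow hX (by positivity)
  have hZ1 : 1 ≤ Z := Real.one_le_rpow hX (by positivity)
  have hH0 : 0 < H := by linarith
  have hZ0 : 0 < Z := by linarith
  have hZn : Z ^ n = X ^ η := by
    rw [hZ, ← Real.rpow_natCast, ← Real.rpow_mul hX0.le, div_mul_cancel₀ _ hn0.ne']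
  have hheight : ∀ (x : Fin n → ℤ) (i : Fin n), (x i).natAbs ≤ height x := fun x i =>
    Finset.le_sup (f := fun i => (x i).natAbs) (Finset.mem_univ i)
  let 𝒟 : Finset ℕ := (Finset.Icc 1 ⌊H⌋₊).filter fun D => Sqf D ∧ Z < (D : ℝ)
  have hex : ∀ x ∈ F, ∃ i, H82.AS.sq (x i).natAbs ∈ 𝒟 := by
    intro x hx
    obtain ⟨⟨a1, a2, a3⟩, hh, hs⟩ := hF x hx
    have hpos : ∀ i, 1 ≤ (x i).natAbs := fun i => Int.natAbs_pos.2 (a1 i)
    have h4 : ∃ i, Z < (H82.AS.sq (x i).natAbs : ℝ) := by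
      by_contra hcon
      have hall : ∀ i, (H82.AS.sq (x i).natAbs : ℝ) ≤ Z := by
        intro i
        by_contra h
        exact hcon ⟨i, not_le.1 h⟩
      have h5 : H82.AS.sq (pr x) ≤ ∏ i, H82.AS.sq (x i).natAbs := by
        rw [pr_eq]
        refine Nat.le_of_dvd (Finset.prod_pos fun i _ => ?_) (sq_prod_dvd h3 univ _ hpos
          fun i j hij => ?_)
        · exact Nat.pos_of_dvd_of_pos (h3 _ (hpos i)).2.1 (hpos i)
        · exact Int.isCoprime_iff_gcd_eq_one.1 (a2 i j hij)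
      have h6 : (H82.AS.sq (pr x) : ℝ) ≤ Z ^ n := by
        calc (H82.AS.sq (pr x) : ℝ) ≤ ∏ i, (H82.AS.sq (x i).natAbs : ℝ) := by exact_mod_cast h5
          _ ≤ ∏ _i : Fin n, Z := Finset.prod_le_prod (fun i _ => Nat.cast_nonneg _)
              fun i _ => hall i
          _ = Z ^ n := by rw [Finset.prod_const, Finset.card_univ, Fintype.card_fin]
      rw [hZn] at h6
      linarith
    obtain ⟨i, hi⟩ := h4
    refine ⟨i, Finset.mem_filter.2 ⟨Finset.mem_Icc.2 ⟨?_, ?_⟩, (h3 _ (hpos i)).1, hi⟩⟩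
    · exact Nat.pos_of_dvd_of_pos (h3 _ (hpos i)).2.1 (hpos i)
    · refine Nat.le_floor ?_
      have h5 : H82.AS.sq (x i).natAbs ≤ height x :=
        (Nat.le_of_dvd (hpos i) (h3 _ (hpos i)).2.1).trans (hheight x i)
      exact le_trans (by exact_mod_cast h5) hh
  have hcov : F ⊆ (univ : Finset (Fin n)).biUnion fun i => 𝒟.biUnion fun D =>
      {x ∈ F | H82.AS.sq (x i).natAbs = D} := by
    intro x hx
    obtain ⟨i, hi⟩ := hex x hx
    rw [Finset.mem_biUnion]
    refine ⟨i, Finset.mem_univ _, Finset.mem_biUnion.2 ⟨_, hi, Finset.mem_filter.2 ⟨hx, rfl⟩⟩⟩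
  have hone : ∀ i : Fin n, ∀ D ∈ 𝒟, (({x ∈ F | H82.AS.sq (x i).natAbs = D} : Finset (Fin n → ℤ)).card : ℝ)
      ≤ 2 * C₁ * H ^ (n - 1) * (1 / (D : ℝ)) := by
    intro i D hD
    rw [Finset.mem_filter, Finset.mem_Icc] at hD
    obtain ⟨⟨hD1, hDH⟩, hDs, hDZ⟩ := hD
    have hDR : (0 : ℝ) < D := by exact_mod_cast hD1
    have hDH' : (D : ℝ) ≤ H := (Nat.le_floor_iff hH0.le).1 hDH
    let d : Fin n → ℕ := Function.update (fun _ => 1) i D
    have hd : PC d := by
      constructor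
      · intro j
        by_cases h : j = i
        · rw [h]
          show 1 ≤ Function.update (fun _ => 1) i D i
          rw [Function.update_self]
          exact hD1
        · show 1 ≤ Function.update (fun _ => 1) i D j
          rw [Function.update_of_ne h]
      · intro j k hjk
        show (Function.update (fun _ => 1) i D j).Coprime (Function.update (fun _ => 1) i D k)
        by_cases h : j = i
        · have hk : k ≠ i := fun h' => hjk (h.trans h'.symm)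
          rw [Function.update_of_ne hk]
          exact Nat.coprime_one_right _
        · rw [Function.update_of_ne h]
          exact Nat.coprime_one_left _
    have hdprod : ∏ j, (d j : ℝ) = D := by
      have h5 : ∏ j, d j = D := by
        show ∏ j, Function.update (fun _ => 1) i D j = D
        rw [Finset.prod_update_of_mem (Finset.mem_univ i)]
        simp
      exact_mod_cast h5
    have h4 := hB d H {x ∈ F | H82.AS.sq (x i).natAbs = D} hd hH1 ?_
    · rw [hdprod] at h4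
      refine h4.trans ?_
      have h5 : H ^ (n - 1) = H ^ (n - 2) * H := by
        rw [← pow_succ]
        congr 1
        omega
      have h6 : H ^ (n - 2) ≤ H ^ (n - 1) / D := by
        rw [le_div_iff₀ hDR, h5]
        exact mul_le_mul_of_nonneg_left hDH' (by positivity)
      calc C₁ * (H ^ (n - 1) / D + H ^ (n - 2)) ≤ C₁ * (H ^ (n - 1) / D + H ^ (n - 1) / D) := by
            refine mul_le_mul_of_nonneg_left ?_ hC₁.le
            linarith
        _ = _ := by ring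
    · intro x hx
      rw [Finset.mem_filter] at hx
      obtain ⟨⟨a1, a2, a3⟩, hh, hs⟩ := hF x hx.1
      refine ⟨⟨fun j => ⟨a1 j, ?_⟩, a3⟩, hh⟩
      by_cases h : j = i
      · rw [h]
        have h5 : d i = D := Function.update_self _ _ _
        rw [h5, ← hx.2]
        exact Int.natCast_dvd.2 (h3 _ (Int.natAbs_pos.2 (a1 i))).2.1
      · have h5 : d j = 1 := Function.update_of_ne h _ _
        rw [h5]
        exact one_dvd _
  have hsum : ∑ D ∈ 𝒟, 1 / (D : ℝ) ≤ C₂ * Z ^ (-(1 / (8 * (n : ℝ)))) := by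
    refine le_trans (Finset.sum_le_sum fun D hD => ?_) (hS Z 𝒟 hZ1 ?_)
    · rw [Finset.mem_filter, Finset.mem_Icc] at hD
      have hDR : (1 : ℝ) ≤ D := by exact_mod_cast hD.1.1
      have h4 : (1 : ℝ) ≤ ex D := ((h3 D hD.1.1).2.2.2.2.1 D dvd_rfl).1
      have h5 : (1 : ℝ) ≤ (D : ℝ) ^ (1 / (4 * (n : ℝ))) := Real.one_le_rpow hDR (by positivity)
      have h6 : (0 : ℝ) ≤ 1 - 1 / (n : ℝ) := by
        rw [sub_nonneg, div_le_one hn0]
        have : 1 ≤ n := by omega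
        exact_mod_cast this
      have h7 : (1 : ℝ) ≤ ex D ^ (1 - 1 / (n : ℝ)) := Real.one_le_rpow h4 h6
      refine div_le_div_of_nonneg_right ?_ (by linarith)
      nlinarith
    · intro D hD
      rw [Finset.mem_filter, Finset.mem_Icc] at hD
      exact ⟨hD.2.1, hD.1.1, hD.2.2.le⟩
  have hpow : H ^ (n - 1) * Z ^ (-(1 / (8 * (n : ℝ)))) ≤
      X ^ (1 - 1 / (n : ℝ) - η / (16 * (n : ℝ) ^ 2)) := by
    rw [hH, hZ, ← Real.rpow_natCast, ← Real.rpow_mul hX0.le, ← Real.rpow_mul hX0.le,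
      ← Real.rpow_add hX0, Nat.cast_sub (by omega)]
    refine Real.rpow_le_rpow_of_exponent_le hX ?_
    have h4 : ε₀ * ((n : ℝ) - 1) ≤ η / (16 * (n : ℝ) ^ 2) := by
      have h5 : ε₀ * (n : ℝ) = η / (16 * (n : ℝ) ^ 2) := by
        rw [hε₀]
        field_simp
      have h6 : 0 ≤ ε₀ := hε0.le
      nlinarith
    have h7 : (1 / (n : ℝ)) * ((n : ℝ) - 1) = 1 - 1 / (n : ℝ) := by
      field_simp
    have h8 : η / (n : ℝ) * -(1 / (8 * (n : ℝ))) = -(2 * (η / (16 * (n : ℝ) ^ 2))) := by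
      field_simp
      ring
    push_cast
    rw [add_mul, h7, h8]
    linarith
  calc (F.card : ℝ) ≤ (((univ : Finset (Fin n)).biUnion fun i => 𝒟.biUnion fun D =>
      {x ∈ F | H82.AS.sq (x i).natAbs = D}).card : ℝ) := by exact_mod_cast Finset.card_le_card hcov
    _ ≤ ∑ i : Fin n, ((𝒟.biUnion fun D => {x ∈ F | H82.AS.sq (x i).natAbs = D}).card : ℝ) := by
        exact_mod_cast Finset.card_biUnion_le
    _ ≤ ∑ i : Fin n, ∑ D ∈ 𝒟, (({x ∈ F | H82.AS.sq (x i).natAbs = D} : Finset (Fin n → ℤ)).card : ℝ) :=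
        Finset.sum_le_sum fun i _ => by exact_mod_cast Finset.card_biUnion_le
    _ ≤ ∑ i : Fin n, ∑ D ∈ 𝒟, 2 * C₁ * H ^ (n - 1) * (1 / (D : ℝ)) :=
        Finset.sum_le_sum fun i _ => Finset.sum_le_sum fun D hD => hone i D hD
    _ = n * (2 * C₁ * H ^ (n - 1) * ∑ D ∈ 𝒟, 1 / (D : ℝ)) := by
        rw [Finset.sum_const, Finset.card_univ, Fintype.card_fin, nsmul_eq_mul, ← Finset.mul_sum]
    _ ≤ n * (2 * C₁ * H ^ (n - 1) * (C₂ * Z ^ (-(1 / (8 * (n : ℝ)))))) := by
        refine mul_le_mul_of_nonneg_left (mul_le_mul_of_nonneg_left hsum (by positivity)) hn0.le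
    _ = n * (2 * C₁ * C₂) * (H ^ (n - 1) * Z ^ (-(1 / (8 * (n : ℝ))))) := by ring
    _ ≤ _ := mul_le_mul_of_nonneg_left hpow (by positivity)

end Pool.Agent.H38.EQ
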